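import Pool.Agent.K4H31.LPH.Lat2

/-!
The Hermite constant is the supremum over the integral lattices.
-/

namespace Pool.Agent.K4H31.LPH

open Finset Matrix Filter Topology
open Pool.Agent.H160R3.Herm

variable {n : ℕ}

theorem sumsq_mulVec_le (M : Matrix (Fin n) (Fin n) ℝ) (v : Fin n → ℝ) :
    ∑ i, (M.mulVec v i) ^ 2 ≤ (∑ i, ∑ j, M i j ^ 2) * ∑ j, v j ^ 2 := by
  rw [Finset.sum_mul]
  refine Finset.sum_le_sum fun i _ => ?_
  exact Finset.sum_mul_sq_le_sq_mul_sq Finset.univ (fun j => M i j) v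

/-- rounding of `t A` -/
noncomputable def rd (A : Matrix (Fin n) (Fin n) ℝ) (t : ℕ) : Matrix (Fin n) (Fin n) ℤ :=
  Matrix.of fun i j => round ((t : ℝ) * A i j)

theorem rd_close (A : Matrix (Fin n) (Fin n) ℝ) {t : ℕ} (ht : 0 < t) (i j : Fin n) :
    |(((t : ℝ)⁻¹ • toR (rd A t)) - A) i j| ≤ (t : ℝ)⁻¹ := by
  have ht' : (0 : ℝ) < t := by exact_mod_cast ht
  have h1 := abs_sub_round ((t : ℝ) * A i j)
  have e : (((t : ℝ)⁻¹ • toR (rd A t)) - A) i j =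
      -((t : ℝ)⁻¹ * ((t : ℝ) * A i j - (round ((t : ℝ) * A i j) : ℝ))) := by
    simp only [Matrix.sub_apply, Matrix.smul_apply, toR, rd, Matrix.map_apply, Matrix.of_apply,
      smul_eq_mul]
    field_simp
    ring
  rw [e, abs_neg, abs_mul, abs_of_pos (inv_pos.mpr ht')]
  calc (t : ℝ)⁻¹ * |(t : ℝ) * A i j - (round ((t : ℝ) * A i j) : ℝ)| ≤ (t : ℝ)⁻¹ * (1 / 2) :=
        mul_le_mul_of_nonneg_left h1 (inv_pos.mpr ht').le
    _ ≤ (t : ℝ)⁻¹ := by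
        have := inv_pos.mpr ht'
        linarith

theorem minSq_rd (hn : 0 < n) (A : Matrix (Fin n) (Fin n) ℝ) (hA : A.det ≠ 0) :
    ∃ K : ℝ, 0 < K ∧ ∀ t : ℕ, 0 < t → K / t + (K / t) ^ 2 ≤ 1 →
      (1 - K / t - (K / t) ^ 2) * ((t : ℝ) ^ 2 * minSq A) ≤
        (1 + K / t) * minSq (toR (rd A t)) := by
  set K : ℝ := n * Real.sqrt (∑ i, ∑ j, A⁻¹ i j ^ 2) + 1 with hK
  have hKpos : 0 < K := by positivity
  refine ⟨K, hKpos, fun t ht hsmall => ?_⟩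
  have ht' : (0 : ℝ) < t := by exact_mod_cast ht
  set δ : ℝ := K / t with hδ
  have hδ0 : 0 < δ := by positivity
  set E := ((t : ℝ)⁻¹ • toR (rd A t)) - A with hE
  have hEF : ∑ i, ∑ j, E i j ^ 2 ≤ (n : ℝ) ^ 2 * ((t : ℝ)⁻¹) ^ 2 := by
    calc ∑ i, ∑ j, E i j ^ 2 ≤ ∑ i : Fin n, ∑ j : Fin n, ((t : ℝ)⁻¹) ^ 2 := by
          refine Finset.sum_le_sum fun i _ => Finset.sum_le_sum fun j _ => ?_
          rw [← sq_abs]
          exact pow_le_pow_left₀ (abs_nonneg _) (rd_close A ht i j) 2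
      _ = _ := by simp; ring
  have hinv : ∀ w : Fin n → ℝ, ∑ j, w j ^ 2 ≤
      (∑ i, ∑ j, A⁻¹ i j ^ 2) * ∑ i, (A.mulVec w i) ^ 2 := by
    intro w
    have h1 := sumsq_mulVec_le A⁻¹ (A.mulVec w)
    rw [Matrix.mulVec_mulVec, Matrix.nonsing_inv_mul _ (isUnit_iff_ne_zero.mpr hA),
      Matrix.one_mulVec] at h1
    exact h1
  have hEw : ∀ w : Fin n → ℝ, ∑ i, (E.mulVec w i) ^ 2 ≤ δ ^ 2 * ∑ i, (A.mulVec w i) ^ 2 := by
    intro w
    have h0 : 0 ≤ ∑ i, (A.mulVec w i) ^ 2 := Finset.sum_nonneg fun i _ => sq_nonneg _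
    have h3 : 0 ≤ ∑ j, w j ^ 2 := Finset.sum_nonneg fun i _ => sq_nonneg _
    have hS : 0 ≤ ∑ i, ∑ j, A⁻¹ i j ^ 2 :=
      Finset.sum_nonneg fun i _ => Finset.sum_nonneg fun j _ => sq_nonneg _
    calc ∑ i, (E.mulVec w i) ^ 2 ≤ (∑ i, ∑ j, E i j ^ 2) * ∑ j, w j ^ 2 := sumsq_mulVec_le E w
      _ ≤ ((n : ℝ) ^ 2 * ((t : ℝ)⁻¹) ^ 2) * ∑ j, w j ^ 2 := mul_le_mul_of_nonneg_right hEF h3
      _ ≤ ((n : ℝ) ^ 2 * ((t : ℝ)⁻¹) ^ 2) *
          ((∑ i, ∑ j, A⁻¹ i j ^ 2) * ∑ i, (A.mulVec w i) ^ 2) :=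
          mul_le_mul_of_nonneg_left (hinv w) (by positivity)
      _ = ((n * Real.sqrt (∑ i, ∑ j, A⁻¹ i j ^ 2)) / t) ^ 2 * ∑ i, (A.mulVec w i) ^ 2 := by
          rw [div_pow, mul_pow, Real.sq_sqrt hS]
          field_simp
      _ ≤ δ ^ 2 * ∑ i, (A.mulVec w i) ^ 2 := by
          apply mul_le_mul_of_nonneg_right _ h0
          apply pow_le_pow_left₀ (by positivity)
          rw [hδ]
          apply div_le_div_of_nonneg_right _ ht'.le
          rw [hK]; linarith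
  have hmain : ∀ w : Fin n → ℤ, w ≠ 0 →
      (1 - δ - δ ^ 2) * ((t : ℝ) ^ 2 * minSq A) / (1 + δ) ≤
        ∑ i, ((toR (rd A t)).mulVec (fun j => (w j : ℝ)) i) ^ 2 := by
    intro w hw
    set v : Fin n → ℝ := fun j => (w j : ℝ) with hv
    have h1 := hEw v
    have h2 := minSq_le A w hw
    have h3 : ∀ i, (A.mulVec v i) ^ 2 ≤
        (1 + δ) * ((t : ℝ)⁻¹ ^ 2 * ((toR (rd A t)).mulVec v i) ^ 2) +
          (1 + 1 / δ) * (E.mulVec v i) ^ 2 := by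
      intro i
      have e : A.mulVec v i = (t : ℝ)⁻¹ * (toR (rd A t)).mulVec v i - E.mulVec v i := by
        rw [hE, Matrix.sub_mulVec, Matrix.smul_mulVec]
        simp
      rw [e, ← mul_pow]
      set x := (t : ℝ)⁻¹ * (toR (rd A t)).mulVec v i
      set y := E.mulVec v i
      have h4 : 0 ≤ (δ * x + y) ^ 2 / δ := by positivity
      have h5 : (δ * x + y) ^ 2 / δ = δ * x ^ 2 + 2 * (x * y) + 1 / δ * y ^ 2 := by
        field_simp
        ring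
      nlinarith
    have h6 := Finset.sum_le_sum fun i (_ : i ∈ (univ : Finset (Fin n))) => h3 i
    rw [Finset.sum_add_distrib, ← Finset.mul_sum, ← Finset.mul_sum, ← Finset.mul_sum] at h6
    set a := ∑ i, (A.mulVec v i) ^ 2 with ha
    set b := ∑ i, ((toR (rd A t)).mulVec v i) ^ 2 with hb
    set c := ∑ i, (E.mulVec v i) ^ 2 with hc
    have h7 : (1 + 1 / δ) * c ≤ (δ ^ 2 + δ) * a := by
      calc (1 + 1 / δ) * c ≤ (1 + 1 / δ) * (δ ^ 2 * a) :=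
            mul_le_mul_of_nonneg_left h1 (by positivity)
        _ = (δ ^ 2 + δ) * a := by field_simp
    rw [div_le_iff₀ (by positivity)]
    have h8 : (1 - δ - δ ^ 2) * a ≤ (1 + δ) * ((t : ℝ)⁻¹ ^ 2 * b) := by linarith
    have h9 : (1 - δ - δ ^ 2) * minSq A ≤ (1 - δ - δ ^ 2) * a :=
      mul_le_mul_of_nonneg_left h2 (by linarith)
    have h10 : (1 - δ - δ ^ 2) * minSq A ≤ (1 + δ) * ((t : ℝ)⁻¹ ^ 2 * b) := h9.trans h8
    have h11 := mul_le_mul_of_nonneg_left h10 (by positivity : (0 : ℝ) ≤ (t : ℝ) ^ 2)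
    have e1 : (t : ℝ) ^ 2 * ((1 + δ) * ((t : ℝ)⁻¹ ^ 2 * b)) = b * (1 + δ) := by
      field_simp
    rw [e1] at h11
    calc _ = (t : ℝ) ^ 2 * ((1 - δ - δ ^ 2) * minSq A) := by ring
      _ ≤ _ := h11
  have h12 := le_minSq hn (toR (rd A t)) _ hmain
  rw [div_le_iff₀ (by positivity)] at h12
  linarith

theorem tendsto_rd (A : Matrix (Fin n) (Fin n) ℝ) :
    Tendsto (fun t : ℕ => (t : ℝ)⁻¹ • toR (rd A t)) atTop (𝓝 A) := by
  have h : Tendsto (fun t : ℕ => ((t : ℝ)⁻¹ • toR (rd A t)) - A) atTop (𝓝 0) := by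
    refine tendsto_pi_nhds.mpr fun i => tendsto_pi_nhds.mpr fun j => ?_
    apply squeeze_zero_norm' (a := fun t : ℕ => (t : ℝ)⁻¹)
    · filter_upwards [eventually_gt_atTop 0] with t ht
      exact rd_close A ht i j
    · exact tendsto_inv_atTop_nhds_zero_nat
  have h2 := h.add_const A
  simpa using h2

/-- integral lattices suffice -/
theorem hermite_le_of_int (hn : 0 < n) {β : ℝ}
    (hβ : ∀ B : Matrix (Fin n) (Fin n) ℤ, B.det ≠ 0 →
      minSq (toR B) / |(toR B).det| ^ ((2 : ℝ) / n) ≤ β) : hermite n ≤ β := by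
  have hn' : (0 : ℝ) < n := by exact_mod_cast hn
  have : Nonempty {A : Matrix (Fin n) (Fin n) ℝ // A.det ≠ 0} := ⟨⟨1, by simp⟩⟩
  apply ciSup_le
  rintro ⟨A, hA⟩
  obtain ⟨K, hK0, hK⟩ := minSq_rd hn A hA
  have hdet : Tendsto (fun t : ℕ => ((t : ℝ)⁻¹ • toR (rd A t)).det) atTop (𝓝 A.det) :=
    ((continuous_id.matrix_det).tendsto A).comp (tendsto_rd A)
  have hδ : Tendsto (fun t : ℕ => K / (t : ℝ)) atTop (𝓝 0) :=
    tendsto_const_div_atTop_nhds_zero_nat K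
  have hlim : Tendsto (fun t : ℕ => (1 - K / t - (K / t) ^ 2) / (1 + K / t) *
      (minSq A / |((t : ℝ)⁻¹ • toR (rd A t)).det| ^ ((2 : ℝ) / n))) atTop
      (𝓝 ((1 - 0 - 0 ^ 2) / (1 + 0) * (minSq A / |A.det| ^ ((2 : ℝ) / n)))) := by
    apply Tendsto.mul
    · apply Tendsto.div
      · exact (tendsto_const_nhds.sub hδ).sub (hδ.pow 2)
      · exact tendsto_const_nhds.add hδ
      · norm_num
    · apply Tendsto.div tendsto_const_nhds
      · apply Tendsto.rpow_const hdet.abs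
        left
        exact (abs_pos.mpr hA).ne'
      · exact (Real.rpow_pos_of_pos (abs_pos.mpr hA) _).ne'
  have hlim' : (1 - 0 - 0 ^ 2) / (1 + 0) * (minSq A / |A.det| ^ ((2 : ℝ) / n)) =
      minSq A / |A.det| ^ ((2 : ℝ) / n) := by norm_num
  rw [hlim'] at hlim
  apply le_of_tendsto hlim
  have hev1 : ∀ᶠ t : ℕ in atTop, K / (t : ℝ) + (K / t) ^ 2 < 1 := by
    have h : Tendsto (fun t : ℕ => K / (t : ℝ) + (K / t) ^ 2) atTop (𝓝 (0 + 0 ^ 2)) :=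
      hδ.add (hδ.pow 2)
    exact h.eventually (gt_mem_nhds (by norm_num))
  have hev2 : ∀ᶠ t : ℕ in atTop, ((t : ℝ)⁻¹ • toR (rd A t)).det ≠ 0 :=
    hdet.eventually_ne hA
  filter_upwards [hev1, hev2, eventually_gt_atTop 0] with t h1 h2 ht
  have ht' : (0 : ℝ) < t := by exact_mod_cast ht
  have hdetS : ((t : ℝ)⁻¹ • toR (rd A t)).det = (t : ℝ)⁻¹ ^ n * (toR (rd A t)).det := by
    rw [Matrix.det_smul, Fintype.card_fin]
  have hd2 : (toR (rd A t)).det ≠ 0 := by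
    intro h
    rw [hdetS, h, mul_zero] at h2
    exact h2 rfl
  have hd3 : (rd A t).det ≠ 0 := by
    intro h
    rw [toR_det, h] at hd2
    exact hd2 (by norm_num)
  refine le_trans ?_ (hβ _ hd3)
  have hp1 : 0 < |(toR (rd A t)).det| := abs_pos.mpr hd2
  have hp2 : 0 < |(toR (rd A t)).det| ^ ((2 : ℝ) / n) := Real.rpow_pos_of_pos hp1 _
  have e1 : |((t : ℝ)⁻¹ • toR (rd A t)).det| ^ ((2 : ℝ) / n) =
      (t : ℝ)⁻¹ ^ 2 * |(toR (rd A t)).det| ^ ((2 : ℝ) / n) := by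
    rw [hdetS, abs_mul, Real.mul_rpow (abs_nonneg _) (abs_nonneg _)]
    congr 1
    rw [abs_of_pos (by positivity), ← Real.rpow_natCast, ← Real.rpow_mul (by positivity),
      mul_div_cancel₀ _ hn'.ne']
    norm_cast
  rw [e1]
  have hk := hK t ht h1.le
  have hk0 : (0 : ℝ) < 1 + K / t := by positivity
  rw [div_mul_div_comm, div_le_div_iff₀ (by positivity) hp2]
  have : (1 - K / t - (K / t) ^ 2) * minSq A ≤ (t : ℝ)⁻¹ ^ 2 * ((1 + K / t) * minSq (toR (rd A t))) := by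
    have h3 := mul_le_mul_of_nonneg_left hk (by positivity : (0 : ℝ) ≤ (t : ℝ)⁻¹ ^ 2)
    have e2 : (t : ℝ)⁻¹ ^ 2 * ((1 - K / t - (K / t) ^ 2) * ((t : ℝ) ^ 2 * minSq A)) =
        (1 - K / t - (K / t) ^ 2) * minSq A := by
      field_simp
    rw [e2] at h3
    exact h3
  calc (1 - K / t - (K / t) ^ 2) * minSq A * |(toR (rd A t)).det| ^ ((2 : ℝ) / n)
      ≤ (t : ℝ)⁻¹ ^ 2 * ((1 + K / t) * minSq (toR (rd A t))) *
        |(toR (rd A t)).det| ^ ((2 : ℝ) / n) := mul_le_mul_of_nonneg_right this hp2.le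
    _ = _ := by ring

end Pool.Agent.K4H31.LPH
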