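import Mathlib

/-!
Duality in `(ℤ/m)^n` for the standard pairing, and characters on tuples.
-/

namespace Pool.Agent.K4H31.LPH

open Finset

/-- the group `(ℤ/m)^n` -/
abbrev Gp (n m : ℕ) := Fin n → ZMod m

/-- the standard pairing of `(ℤ/m)^n` -/
def pr {n m : ℕ} (x y : Gp n m) : ZMod m := ∑ i, x i * y i

variable {n m ℓ : ℕ}

theorem pr_comm (x y : Gp n m) : pr x y = pr y x := by
  unfold pr
  exact Finset.sum_congr rfl fun i _ => mul_comm _ _

theorem pr_add (x y z : Gp n m) : pr x (y + z) = pr x y + pr x z := by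
  unfold pr
  rw [← Finset.sum_add_distrib]
  exact Finset.sum_congr rfl fun i _ => by simp [mul_add]

theorem pr_zero (x : Gp n m) : pr x 0 = 0 := by simp [pr]

theorem pr_neg (x y : Gp n m) : pr x (-y) = -pr x y := by
  unfold pr
  rw [← Finset.sum_neg_distrib]
  exact Finset.sum_congr rfl fun i _ => by simp

theorem pr_single (x : Gp n m) (i : Fin n) : pr x (Pi.single i 1) = x i := by
  unfold pr
  rw [Finset.sum_eq_single i]
  · simp
  · intro j _ hj
    simp [hj]
  · simp

/-- the pairing as a homomorphism -/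
def prHom (x : Gp n m) : Gp n m →+ ZMod m where
  toFun := pr x
  map_zero' := pr_zero x
  map_add' := pr_add x

/-- the dual subgroup -/
def perp (V : AddSubgroup (Gp n m)) : AddSubgroup (Gp n m) where
  carrier := {x | ∀ y ∈ V, pr x y = 0}
  zero_mem' := fun y _ => by rw [pr_comm, pr_zero]
  add_mem' := by
    intro a b ha hb y hy
    rw [pr_comm, pr_add, pr_comm y a, pr_comm y b, ha y hy, hb y hy, add_zero]
  neg_mem' := by
    intro a ha y hy
    rw [pr_comm, pr_neg, pr_comm y a, ha y hy, neg_zero]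

theorem mem_perp {V : AddSubgroup (Gp n m)} {x : Gp n m} : x ∈ perp V ↔ ∀ y ∈ V, pr x y = 0 :=
  Iff.rfl

theorem le_perp {U V : AddSubgroup (Gp n m)} : U ≤ perp V ↔ V ≤ perp U :=
  ⟨fun h y hy x hx => by rw [pr_comm]; exact h hx y hy,
    fun h y hy x hx => by rw [pr_comm]; exact h hx y hy⟩

/-- order of a subgroup, as a real number -/
noncomputable def sz (V : AddSubgroup (Gp n m)) : ℝ := (Nat.card V : ℝ)

variable [NeZero m]

theorem sz_pos (V : AddSubgroup (Gp n m)) : 0 < sz V := by
  unfold sz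
  exact_mod_cast Nat.card_pos

open Classical in
/-- sum of a character over a subgroup -/
theorem charSum (K : AddSubgroup (Gp n m)) (x : Gp n m) :
    ∑ y ∈ univ.filter (fun y => y ∈ K), ZMod.stdAddChar (pr x y) =
      if x ∈ perp K then (Nat.card K : ℂ) else 0 := by
  set ψ : AddChar K ℂ :=
    (ZMod.stdAddChar (N := m)).compAddMonoidHom ((prHom x).comp K.subtype) with hψ
  have hval : ∀ y : K, ψ y = ZMod.stdAddChar (pr x (y : Gp n m)) := fun y => rfl
  have h1 : ∑ y ∈ univ.filter (fun y => y ∈ K), ZMod.stdAddChar (pr x y) = ∑ y : K, ψ y := by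
    symm
    rw [Finset.sum_congr rfl fun y _ => hval y]
    exact (Finset.sum_subtype (univ.filter (fun y => y ∈ K)) (fun y => by simp)
      (fun y => ZMod.stdAddChar (pr x y))).symm
  rw [h1, AddChar.sum_eq_ite]
  have h2 : ψ = 0 ↔ x ∈ perp K := by
    constructor
    · intro h y hy
      have h3 : ψ ⟨y, hy⟩ = 1 := by rw [h]; rfl
      rw [hval] at h3
      apply ZMod.injective_stdAddChar
      rw [h3, AddChar.map_zero_eq_one]
    · intro h
      ext y
      rw [hval, h y y.2, AddChar.map_zero_eq_one]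
      rfl
  by_cases h : x ∈ perp K
  · rw [if_pos h, if_pos (h2.mpr h), Nat.card_eq_fintype_card]
  · rw [if_neg h, if_neg (fun h' => h (h2.mp h'))]

omit [NeZero m] in
theorem perp_top : perp (⊤ : AddSubgroup (Gp n m)) = ⊥ := by
  rw [eq_bot_iff]
  intro x hx
  rw [AddSubgroup.mem_bot]
  funext i
  have := hx (Pi.single i 1) trivial
  rw [pr_single] at this
  simpa using this

/-- the orders of a subgroup and of its dual -/
theorem sz_mul_sz (K : AddSubgroup (Gp n m)) : sz K * sz (perp K) = sz (⊤ : AddSubgroup (Gp n m)) := by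
  classical
  have h1 : ∑ x : Gp n m, ∑ y ∈ univ.filter (fun y => y ∈ K), ZMod.stdAddChar (pr x y) =
      (Nat.card K : ℂ) * Nat.card (perp K) := by
    rw [Finset.sum_congr rfl fun x _ => charSum K x, ← Finset.sum_filter, Finset.sum_const,
      nsmul_eq_mul, mul_comm]
    congr 2
    rw [Nat.card_eq_fintype_card, Fintype.card_subtype]
  have h2 : ∑ x : Gp n m, ∑ y ∈ univ.filter (fun y => y ∈ K), ZMod.stdAddChar (pr x y) =
      (Nat.card (⊤ : AddSubgroup (Gp n m)) : ℂ) := by
    rw [Finset.sum_comm]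
    have h3 : ∀ y ∈ univ.filter (fun y => y ∈ K), ∑ x : Gp n m, ZMod.stdAddChar (pr x y) =
        if y = 0 then (Nat.card (⊤ : AddSubgroup (Gp n m)) : ℂ) else 0 := by
      intro y _
      have h4 := charSum (⊤ : AddSubgroup (Gp n m)) y
      rw [perp_top] at h4
      rw [Finset.filter_true_of_mem (fun _ _ => AddSubgroup.mem_top _)] at h4
      simp only [AddSubgroup.mem_bot] at h4
      rw [← h4]
      exact Finset.sum_congr rfl fun x _ => by rw [pr_comm]
    rw [Finset.sum_congr rfl h3, Finset.sum_ite_eq']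
    rw [if_pos]
    simp [K.zero_mem]
  have h5 : (Nat.card K : ℂ) * Nat.card (perp K) = Nat.card (⊤ : AddSubgroup (Gp n m)) := by
    rw [← h1, h2]
  unfold sz
  exact_mod_cast h5

theorem perp_perp (K : AddSubgroup (Gp n m)) : perp (perp K) = K := by
  have hle : K ≤ perp (perp K) := le_perp.mpr le_rfl
  symm
  apply AddSubgroup.eq_of_le_of_card_ge hle
  have h1 := sz_mul_sz K
  have h2 := sz_mul_sz (perp K)
  have h3 : sz (perp (perp K)) = sz K := by
    have hp := (sz_pos (perp K)).ne'
    have : sz (perp K) * sz (perp (perp K)) = sz (perp K) * sz K := by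
      rw [h2, ← h1, mul_comm]
    exact mul_left_cancel₀ hp this
  unfold sz at h3
  exact (Nat.cast_injective h3).le

theorem perp_inj {U V : AddSubgroup (Gp n m)} (h : perp U = perp V) : U = V := by
  rw [← perp_perp U, h, perp_perp]

theorem perp_anti {U V : AddSubgroup (Gp n m)} : perp U ≤ perp V ↔ V ≤ U := by
  rw [le_perp, perp_perp]

theorem perp_anti_lt {U V : AddSubgroup (Gp n m)} : perp U < perp V ↔ V < U := by
  rw [lt_iff_le_not_ge, lt_iff_le_not_ge, perp_anti, perp_anti]

theorem perp_sup (U V : AddSubgroup (Gp n m)) : perp (U ⊔ V) = perp U ⊓ perp V := by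
  apply le_antisymm
  · exact le_inf (perp_anti.mpr le_sup_left) (perp_anti.mpr le_sup_right)
  · rw [le_perp]
    exact sup_le (le_perp.mp inf_le_left) (le_perp.mp inf_le_right)

theorem perp_inf (U V : AddSubgroup (Gp n m)) : perp (U ⊓ V) = perp U ⊔ perp V := by
  apply perp_inj
  rw [perp_perp, perp_sup, perp_perp, perp_perp]

omit [NeZero m] in
/-- the product formula -/
theorem sz_sup_inf (U V : AddSubgroup (Gp n m)) : sz (U ⊔ V) * sz (U ⊓ V) = sz U * sz V := by
  have h1 : V.relIndex (U ⊔ V) = V.relIndex U := AddSubgroup.relIndex_sup_right U V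
  have h2 : (U ⊓ V).relIndex U = V.relIndex U := by
    rw [inf_comm]; exact AddSubgroup.inf_relIndex_right V U
  have h3 : Nat.card V * V.relIndex (U ⊔ V) = Nat.card (U ⊔ V : AddSubgroup (Gp n m)) := by
    have := AddSubgroup.relIndex_mul_relIndex (⊥ : AddSubgroup (Gp n m)) V (U ⊔ V) bot_le
      le_sup_right
    rwa [AddSubgroup.relIndex_bot_left, AddSubgroup.relIndex_bot_left] at this
  have h4 : Nat.card (U ⊓ V : AddSubgroup (Gp n m)) * (U ⊓ V).relIndex U = Nat.card U := by
    have := AddSubgroup.relIndex_mul_relIndex (⊥ : AddSubgroup (Gp n m)) (U ⊓ V) U bot_le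
      inf_le_left
    rwa [AddSubgroup.relIndex_bot_left, AddSubgroup.relIndex_bot_left] at this
  rw [h1] at h3
  rw [h2] at h4
  unfold sz
  rw [← h3, ← h4]
  push_cast
  ring

/-- the order of an intersection in terms of the duals -/
theorem sz_inf (W U : AddSubgroup (Gp n m)) :
    sz (W ⊓ U) * sz (⊤ : AddSubgroup (Gp n m)) = sz W * sz U * sz (perp W ⊓ perp U) := by
  have h1 := sz_mul_sz (W ⊓ U)
  rw [perp_inf] at h1
  have h2 := sz_sup_inf (perp W) (perp U)
  have h3 := sz_mul_sz W
  have h4 := sz_mul_sz U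
  have p1 := sz_pos (perp W ⊔ perp U)
  have e : sz (perp W ⊔ perp U) * (sz (W ⊓ U) * sz (⊤ : AddSubgroup (Gp n m))) =
      sz (perp W ⊔ perp U) * (sz W * sz U * sz (perp W ⊓ perp U)) := by
    calc _ = (sz (W ⊓ U) * sz (perp W ⊔ perp U)) * sz (⊤ : AddSubgroup (Gp n m)) := by ring
      _ = (sz W * sz (perp W)) * (sz U * sz (perp U)) := by rw [h1, h3, h4]
      _ = (sz W * sz U) * (sz (perp W) * sz (perp U)) := by ring
      _ = _ := by rw [← h2]; ring
  exact mul_left_cancel₀ p1.ne' e

end Pool.Agent.K4H31.LPH
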