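import Pool.Agent.K4H31.LPH.Approx

/-!
The linear programming hierarchy: the bound of level `≥ n + 3`.
-/

namespace Pool.Agent.K4H31.LPH

open Finset Matrix Filter Topology
open Pool.Agent.H160R3.Herm

variable {n m ℓ : ℕ} [NeZero m]

/-- the gap of level `ℓ` -/
theorem S_bound (h : n + 3 ≤ ℓ) (K : AddSubgroup (Gp n m)) :
    S ℓ K ≤ 2 - (1 - 2 * (2 ^ (n + 1) / 2 ^ ℓ)) / (1 - 2 ^ (n + 1) / 2 ^ ℓ) := by
  obtain ⟨g, hg⟩ := exists_gens K
  have h2 : (2 : ℝ) ^ (n + 3) ≤ 2 ^ ℓ := pow_le_pow_right₀ (by norm_num) h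
  have h1 := S_le n ℓ g (by omega) (by
    have : (2 : ℝ) ^ (n + 3) = 8 * 2 ^ n := by rw [pow_add]; norm_num; ring
    have h3 : (0 : ℝ) < 2 ^ n := by positivity
    linarith)
  rw [hg] at h1
  set t : ℝ := 2 ^ (n + 1) / 2 ^ ℓ with ht
  have ht0 : 0 < t := by positivity
  have ht1 : t ≤ 1 / 4 := by
    rw [ht, div_le_div_iff₀ (by positivity) (by norm_num)]
    have : (2 : ℝ) ^ (n + 3) = 4 * 2 ^ (n + 1) := by rw [pow_add, pow_add]; norm_num; ring
    linarith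
  have e : 1 - 2 / 2 ^ ℓ * ((2 : ℝ) ^ n - 1) = 1 - t + 2 / 2 ^ ℓ := by
    rw [ht, pow_succ]; ring
  rw [e] at h1
  have hS := S_nonneg (G := Gp n m) ℓ K
  have h4 : S ℓ K * (1 - t) ≤ 1 := by
    refine le_trans ?_ h1
    apply mul_le_mul_of_nonneg_left _ hS
    have : (0 : ℝ) < 2 / 2 ^ ℓ := by positivity
    linarith
  have h1t : 1 - t ≠ 0 := by linarith
  have h5 : 2 - (1 - 2 * t) / (1 - t) = 1 / (1 - t) := by
    field_simp
    ring
  rw [h5, le_div_iff₀ (by linarith)]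
  exact h4

/-- the main inequality with the explicit constant -/
theorem main_bound (h : n + 3 ≤ ℓ) (a : Tu n m ℓ → ℝ) (ha0 : a 0 = 1) (hhat : ∀ Y, 0 ≤ hat a Y)
    (Fb : AddSubgroup (Gp n m) → Prop) (hup : ∀ K K', Fb K → K ≤ K' → Fb K')
    (hsupp : ∀ X, Fb (gen X) → a X = 0) (M : ℝ)
    (hM : ∀ K, ¬ Fb K → sz K ≤ M) :
    ∑ X, a X ≤ (1 + 2 ^ (n + 2) / 2 ^ ℓ) ^ 2 * M ^ ℓ := by
  have h2 : (2 : ℝ) ^ (n + 3) ≤ 2 ^ ℓ := pow_le_pow_right₀ (by norm_num) h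
  set t : ℝ := 2 ^ (n + 1) / 2 ^ ℓ with ht
  have ht0 : 0 < t := by positivity
  have ht1 : t ≤ 1 / 4 := by
    rw [ht, div_le_div_iff₀ (by positivity) (by norm_num)]
    have : (2 : ℝ) ^ (n + 3) = 4 * 2 ^ (n + 1) := by rw [pow_add, pow_add]; norm_num; ring
    linarith
  have hη0 : 0 < (1 - 2 * t) / (1 - t) := div_pos (by linarith) (by linarith)
  have h3 := main_core hη0 (fun K => S_bound h K) a ha0 hhat Fb hup hsupp M hM
  refine h3.trans ?_
  have hMpos : 0 ≤ M ^ ℓ := by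
    by_cases hbot : Fb ⊥
    · exfalso
      have := hsupp 0 (hup ⊥ _ hbot bot_le)
      rw [ha0] at this
      exact one_ne_zero this
    · exact pow_nonneg ((sz_pos _).le.trans (hM ⊥ hbot)) ℓ
  have e : (2 : ℝ) ^ (n + 2) / 2 ^ ℓ = 2 * t := by rw [ht, pow_succ 2 (n + 1)]; ring
  rw [e, div_eq_mul_inv, mul_comm]
  apply mul_le_mul_of_nonneg_right _ hMpos
  rw [← inv_pow]
  apply pow_le_pow_left₀ (by positivity)
  rw [inv_div, div_le_iff₀ (by linarith)]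
  nlinarith

omit [NeZero m] in
theorem Ok_anti {d : ℕ} {U V : AddSubgroup (Gp n m)} (h : V ≤ U) (hU : Ok d U) : Ok d V :=
  fun u hu hu0 => hU u (h hu) hu0

/-- a largest allowed subgroup -/
theorem exists_largest (n m d : ℕ) [NeZero m] : ∃ U : AddSubgroup (Gp n m), Ok d U ∧
    ∀ V : AddSubgroup (Gp n m), Ok d V → Nat.card V ≤ Nat.card U := by
  classical
  obtain ⟨U, hU, hmax⟩ := Finset.exists_max_image
    (univ.filter (fun U : AddSubgroup (Gp n m) => Ok d U)) (fun U => Nat.card U)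
    ⟨⊥, by
      rw [Finset.mem_filter]
      exact ⟨Finset.mem_univ _, fun u hu hu0 => absurd (AddSubgroup.mem_bot.mp hu) hu0⟩⟩
  refine ⟨U, (Finset.mem_filter.mp hU).2, fun V hV => hmax V ?_⟩
  rw [Finset.mem_filter]
  exact ⟨Finset.mem_univ _, hV⟩

/-- a pseudo-lattice is not much larger than the largest allowed subgroup -/
theorem pseudo_le {d : ℕ} (h : n + 3 ≤ ℓ) (a : Tu n m ℓ → ℝ) (ha0 : a 0 = 1)
    (hhat : ∀ Y, 0 ≤ hat a Y) (hsupp : ∀ X, ¬ Ok d (gen X) → a X = 0)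
    {U : AddSubgroup (Gp n m)} (hU : ∀ V : AddSubgroup (Gp n m), Ok d V → Nat.card V ≤ Nat.card U) :
    ∑ X, a X ≤ (1 + 2 ^ (n + 2) / 2 ^ ℓ) ^ 2 * sz U ^ ℓ := by
  refine main_bound h a ha0 hhat (fun K => ¬ Ok d K) (fun K K' hK hle hK' => hK (Ok_anti hle hK'))
    hsupp (sz U) ?_
  intro K hK
  unfold sz
  exact_mod_cast hU K (not_not.mp hK)

/-- exactness after rounding -/
theorem pseudo_lt {d : ℕ} (h : n + 3 ≤ ℓ) (hlev : 2 ^ (n + 2) * m ^ n ≤ 2 ^ ℓ)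
    (a : Tu n m ℓ → ℝ) (ha0 : a 0 = 1)
    (hhat : ∀ Y, 0 ≤ hat a Y) (hsupp : ∀ X, ¬ Ok d (gen X) → a X = 0)
    {U : AddSubgroup (Gp n m)} (hU : ∀ V : AddSubgroup (Gp n m), Ok d V → Nat.card V ≤ Nat.card U) :
    ∑ X, a X < (sz U + 1) ^ ℓ := by
  refine (pseudo_le h a ha0 hhat hsupp hU).trans_lt ?_
  have hUpos := sz_pos U
  have hUle : sz U ≤ (m : ℝ) ^ n := by
    unfold sz
    have : Nat.card U ≤ Nat.card (Gp n m) := Nat.card_le_card_of_injective _ Subtype.val_injective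
    rw [card_Gp] at this
    exact_mod_cast this
  set t : ℝ := 2 ^ (n + 2) / 2 ^ ℓ with ht
  have ht0 : 0 < t := by positivity
  have hm : (0 : ℝ) < m := by exact_mod_cast Nat.pos_of_ne_zero (NeZero.ne m)
  have htU : t * sz U ≤ 1 := by
    have h1 : t * (m : ℝ) ^ n ≤ 1 := by
      rw [ht, div_mul_eq_mul_div, div_le_one (by positivity)]
      exact_mod_cast hlev
    exact (mul_le_mul_of_nonneg_left hUle ht0.le).trans h1
  have h3ℓ : 3 ≤ ℓ := by omega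
  have hU1 : 1 ≤ sz U := by
    unfold sz
    exact_mod_cast Nat.one_le_iff_ne_zero.mpr Nat.card_pos.ne'
  have h5 : (1 + t) ^ 2 < (1 + 1 / sz U) ^ 3 := by
    have h6 : t ≤ 1 / sz U := by rw [le_div_iff₀ hUpos]; exact htU
    have h7 : (1 + t) ^ 2 ≤ (1 + 1 / sz U) ^ 2 := pow_le_pow_left₀ (by positivity) (by linarith) 2
    have h8 : (1 + 1 / sz U) ^ 2 < (1 + 1 / sz U) ^ 3 := by
      have hx : 0 < 1 / sz U := by positivity
      apply pow_lt_pow_right₀ (by linarith) (by norm_num)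
    exact lt_of_le_of_lt h7 h8
  have h9 : (1 + 1 / sz U) ^ 3 ≤ (1 + 1 / sz U) ^ ℓ := by
    apply pow_le_pow_right₀ _ h3ℓ
    have hx : 0 < 1 / sz U := by positivity
    linarith
  have h10 : (sz U + 1) ^ ℓ = (1 + 1 / sz U) ^ ℓ * sz U ^ ℓ := by
    rw [← mul_pow]
    congr 1
    field_simp
  rw [h10]
  exact mul_lt_mul_of_pos_right (lt_of_lt_of_le h5 h9) (pow_pos hUpos ℓ)

omit [NeZero m] in
theorem gen_zero_le (V : AddSubgroup (Gp n m)) : gen (0 : Tu n m ℓ) ≤ V :=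
  gen_le.mpr fun _ => V.zero_mem

/-- the indicator of the tuples in a subgroup -/
noncomputable def ind (U : AddSubgroup (Gp n m)) : Tu n m ℓ → ℝ := by
  classical exact fun X => if gen X ≤ U then 1 else 0

theorem ind_hat (U : AddSubgroup (Gp n m)) (Y : Tu n m ℓ) : 0 ≤ hat (ind (ℓ := ℓ) U) Y := by
  classical
  have h := tupleSum U Y
  have h2 : hat (ind (ℓ := ℓ) U) Y = ∑ X ∈ univ.filter (fun X : Tu n m ℓ => gen X ≤ U), cs Y X := by
    unfold hat ind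
    rw [Finset.sum_filter]
    refine Finset.sum_congr rfl fun X _ => ?_
    have e : cs X Y = cs Y X := by
      unfold cs PT
      rw [Finset.sum_congr rfl fun j _ => pr_comm (X j) (Y j)]
    rw [e]
    split_ifs <;> simp
  rw [h2]
  have h' : ∑ X ∈ univ.filter (fun X : Tu n m ℓ => gen X ≤ U), cs Y X =
      if gen Y ≤ perp U then sz U ^ ℓ else 0 := by
    convert h
  rw [h']
  split_ifs
  · exact (pow_pos (sz_pos U) ℓ).le
  · exact le_rfl

theorem ind_sum (U : AddSubgroup (Gp n m)) : ∑ X, ind (ℓ := ℓ) U X = sz U ^ ℓ := by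
  classical
  have h := tupleSum U (0 : Tu n m ℓ)
  rw [if_pos (gen_zero_le _)] at h
  rw [← h]
  unfold ind
  rw [Finset.sum_filter]
  refine Finset.sum_congr rfl fun Y _ => ?_
  have : cs (0 : Tu n m ℓ) Y = 1 := by
    unfold cs PT
    have : ∑ j, pr ((0 : Tu n m ℓ) j) (Y j) = 0 :=
      Finset.sum_eq_zero fun j _ => by rw [Pi.zero_apply, pr_comm, pr_zero]
    rw [this, AddChar.map_zero_eq_one]
    rfl
  rw [this]

omit [NeZero m] in
theorem ind_zero (U : AddSubgroup (Gp n m)) : ind (ℓ := ℓ) U 0 = 1 := by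
  unfold ind
  rw [if_pos (gen_zero_le U)]

omit [NeZero m] in
theorem ind_nonneg (U : AddSubgroup (Gp n m)) (X : Tu n m ℓ) : 0 ≤ ind U X := by
  unfold ind
  split_ifs <;> norm_num

omit [NeZero m] in
theorem ind_supp {d : ℕ} {U : AddSubgroup (Gp n m)} (hU : Ok d U) (X : Tu n m ℓ)
    (h : ¬ Ok d (gen X)) : ind U X = 0 := by
  unfold ind
  rw [if_neg]
  intro h2
  exact h (Ok_anti h2 hU)

theorem cs_eq (X Y : Tu n m ℓ) : cs X Y = Real.cos (2 * Real.pi * ((PT X Y).val : ℝ) / m) := by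
  unfold cs
  rw [ZMod.stdAddChar_apply, ZMod.toCircle_apply]
  have : (2 * (Real.pi : ℂ) * Complex.I * ((PT X Y).val : ℂ) / (m : ℂ)) =
      ((2 * Real.pi * ((PT X Y).val : ℝ) / m : ℝ) : ℂ) * Complex.I := by
    push_cast
    ring
  rw [this, Complex.exp_ofReal_mul_I_re]

end Pool.Agent.K4H31.LPH
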