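import Mathlib

/-!
The sum of `[R : K]^(-s)` over all subgroups `K` of a finite abelian group `R` with `k` generators.
-/

namespace Pool.Agent.K4H31.LPH

open Finset

section general

variable {G : Type} [AddCommGroup G] [Finite G]

omit [Finite G] in
theorem card_sup_inf (U V : AddSubgroup G) :
    Nat.card (U ⊔ V : AddSubgroup G) * Nat.card (U ⊓ V : AddSubgroup G) =
      Nat.card U * Nat.card V := by
  have h1 : V.relIndex (U ⊔ V) = V.relIndex U := AddSubgroup.relIndex_sup_right U V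
  have h2 : (U ⊓ V).relIndex U = V.relIndex U := by
    rw [inf_comm]; exact AddSubgroup.inf_relIndex_right V U
  have h3 : Nat.card V * V.relIndex (U ⊔ V) = Nat.card (U ⊔ V : AddSubgroup G) := by
    have := AddSubgroup.relIndex_mul_relIndex (⊥ : AddSubgroup G) V (U ⊔ V) bot_le
      le_sup_right
    rwa [AddSubgroup.relIndex_bot_left, AddSubgroup.relIndex_bot_left] at this
  have h4 : Nat.card (U ⊓ V : AddSubgroup G) * (U ⊓ V).relIndex U = Nat.card U := by
    have := AddSubgroup.relIndex_mul_relIndex (⊥ : AddSubgroup G) (U ⊓ V) U bot_le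
      inf_le_left
    rwa [AddSubgroup.relIndex_bot_left, AddSubgroup.relIndex_bot_left] at this
  rw [h1] at h3
  rw [h2] at h4
  rw [← h3, ← h4]
  ring

/-- some positive multiple of `r` is in every subgroup -/
theorem exists_mult (D : AddSubgroup G) (r : G) : ∃ j : ℕ, 0 < j ∧ j • r ∈ D :=
  ⟨Nat.card G, Nat.card_pos, by rw [card_nsmul_eq_zero']; exact D.zero_mem⟩

open Classical in
/-- order of `r` modulo `D` -/
noncomputable def ord (D : AddSubgroup G) (r : G) : ℕ := Nat.find (exists_mult D r)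

theorem ord_pos (D : AddSubgroup G) (r : G) : 0 < ord D r := by
  classical exact (Nat.find_spec (exists_mult D r)).1

theorem ord_mem (D : AddSubgroup G) (r : G) : ord D r • r ∈ D := by
  classical exact (Nat.find_spec (exists_mult D r)).2

theorem ord_le (D : AddSubgroup G) (r : G) : ord D r ≤ Nat.card G := by
  classical
  exact Nat.find_min' _ ⟨Nat.card_pos, by rw [card_nsmul_eq_zero']; exact D.zero_mem⟩

theorem ord_min {D : AddSubgroup G} {r : G} {j : ℕ} (h : j < ord D r) (hj : j • r ∈ D) : j = 0 := by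
  classical
  by_contra h0
  exact Nat.find_min (exists_mult D r) h ⟨Nat.pos_of_ne_zero h0, hj⟩

theorem ord_dvd {D : AddSubgroup G} {r : G} {j : ℤ} (hj : j • r ∈ D) :
    ∃ q : ℤ, j = ord D r * q := by
  refine ⟨j / ord D r, ?_⟩
  have h0 : (0 : ℤ) < ord D r := by exact_mod_cast ord_pos D r
  have h1 := Int.emod_add_mul_ediv j (ord D r)
  have h2 : 0 ≤ j % ord D r := Int.emod_nonneg _ h0.ne'
  have h3 : j % ord D r < ord D r := Int.emod_lt_of_pos _ h0
  obtain ⟨t, ht⟩ := Int.eq_ofNat_of_zero_le h2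
  have h4 : t • r ∈ D := by
    have e : (t : ℤ) • r = j • r - (j / ord D r) • (ord D r • r) := by
      rw [← natCast_zsmul r (ord D r), ← mul_smul, ← sub_smul, ← ht]
      congr 1
      linarith
    rw [← natCast_zsmul, e]
    exact D.sub_mem hj (D.zsmul_mem (ord_mem D r) _)
  have h5 : t = 0 := ord_min (by rw [ht] at h3; exact_mod_cast h3) h4
  rw [ht, h5] at h1
  push_cast at h1
  linarith

/-- the translate -/
theorem exists_shift (R0 K : AddSubgroup G) (r : G) :
    ∃ z ∈ K, z - ord (K ⊔ R0) r • r ∈ R0 := by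
  obtain ⟨k, hk, ρ, hρ, h⟩ := AddSubgroup.mem_sup.mp (ord_mem (K ⊔ R0) r)
  refine ⟨k, hk, ?_⟩
  have : k - ord (K ⊔ R0) r • r = -ρ := by rw [← h]; abel
  rw [this]
  exact R0.neg_mem hρ

noncomputable def zz (R0 K : AddSubgroup G) (r : G) : G := (exists_shift R0 K r).choose

theorem zz_mem (R0 K : AddSubgroup G) (r : G) : zz R0 K r ∈ K := (exists_shift R0 K r).choose_spec.1

theorem zz_shift (R0 K : AddSubgroup G) (r : G) : zz R0 K r - ord (K ⊔ R0) r • r ∈ R0 :=
  (exists_shift R0 K r).choose_spec.2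

theorem eq_sup {R0 K : AddSubgroup G} {r : G} (hK : K ≤ R0 ⊔ AddSubgroup.zmultiples r) :
    K = (K ⊓ R0) ⊔ AddSubgroup.zmultiples (zz R0 K r) := by
  apply le_antisymm
  · intro x hx
    obtain ⟨ρ, hρ, y, hy, h⟩ := AddSubgroup.mem_sup.mp (hK hx)
    obtain ⟨j, rfl⟩ := AddSubgroup.mem_zmultiples_iff.mp hy
    have h1 : j • r ∈ K ⊔ R0 := by
      have : j • r = x - ρ := by rw [← h]; abel
      rw [this]
      exact AddSubgroup.sub_mem _ (AddSubgroup.mem_sup_left hx) (AddSubgroup.mem_sup_right hρ)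
    obtain ⟨q, hq⟩ := ord_dvd h1
    rw [AddSubgroup.mem_sup]
    refine ⟨x - q • zz R0 K r, ?_, q • zz R0 K r, ?_, by abel⟩
    · refine ⟨K.sub_mem hx (K.zsmul_mem (zz_mem R0 K r) q), ?_⟩
      have e : x - q • zz R0 K r = ρ - q • (zz R0 K r - ord (K ⊔ R0) r • r) := by
        rw [← h, hq, smul_sub, ← natCast_zsmul r (ord (K ⊔ R0) r), ← mul_smul,
          mul_comm q]
        abel
      rw [e]
      exact R0.sub_mem hρ (R0.zsmul_mem (zz_shift R0 K r) q)
    · exact AddSubgroup.zsmul_mem_zmultiples _ _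
  · refine sup_le inf_le_left ?_
    rw [AddSubgroup.zmultiples_le]
    exact zz_mem R0 K r

/-- index inequality -/
theorem ord_mul_card_le {R0 K : AddSubgroup G} {r : G} (hK : K ≤ R0 ⊔ AddSubgroup.zmultiples r) :
    ord (K ⊔ R0) r * Nat.card (K ⊔ R0 : AddSubgroup G) ≤
      Nat.card (R0 ⊔ AddSubgroup.zmultiples r : AddSubgroup G) := by
  set D := K ⊔ R0 with hD
  have hr : r ∈ R0 ⊔ AddSubgroup.zmultiples r :=
    AddSubgroup.mem_sup_right (AddSubgroup.mem_zmultiples r)
  have hDR : D ≤ R0 ⊔ AddSubgroup.zmultiples r := sup_le hK le_sup_left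
  let f : Fin (ord D r) × D → (R0 ⊔ AddSubgroup.zmultiples r : AddSubgroup G) :=
    fun p => ⟨p.1.1 • r + p.2.1, AddSubgroup.add_mem _ (AddSubgroup.nsmul_mem _ hr _) (hDR p.2.2)⟩
  have hf : Function.Injective f := by
    have key : ∀ (t t' : ℕ) (x x' : G), x ∈ D → x' ∈ D → t' < ord D r → t ≤ t' →
        t • r + x = t' • r + x' → t = t' := by
      intro t t' x x' hx hx' ht' htt h
      have h1 : (t' - t) • r ∈ D := by
        have : (t' - t) • r = x - x' := by
          have h2 : t' • r = (t' - t) • r + t • r := by rw [← add_smul, Nat.sub_add_cancel htt]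
          rw [h2] at h
          have h3 : x = (t' - t) • r + x' := by
            have : t • r + x = t • r + ((t' - t) • r + x') := by rw [h]; abel
            exact add_left_cancel this
          rw [h3]; abel
        rw [this]
        exact D.sub_mem hx hx'
      have h2 := ord_min (lt_of_le_of_lt (Nat.sub_le _ _) ht') h1
      omega
    rintro ⟨⟨t, ht⟩, ⟨x, hx⟩⟩ ⟨⟨t', ht'⟩, ⟨x', hx'⟩⟩ h
    have h0 : t • r + x = t' • r + x' := congrArg Subtype.val h
    have h1 : t = t' := by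
      rcases le_total t t' with hl | hl
      · exact key t t' x x' hx hx' ht' hl h0
      · exact (key t' t x' x hx' hx ht hl h0.symm).symm
    subst h1
    have h2 : x = x' := add_left_cancel h0
    subst h2
    rfl
  have := Nat.card_le_card_of_injective f hf
  rwa [Nat.card_prod, Nat.card_eq_fintype_card, Fintype.card_fin] at this

/-- the finite type of the subgroups -/
noncomputable instance fsub : Fintype (AddSubgroup G) := Fintype.ofFinite _

open Classical in
/-- the sum of the powers of the inverse indices -/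
noncomputable def S (s : ℕ) (R : AddSubgroup G) : ℝ :=
  ∑ K ∈ univ.filter (fun K : AddSubgroup G => K ≤ R), ((Nat.card K : ℝ) / Nat.card R) ^ s

theorem cpos (K : AddSubgroup G) : (0 : ℝ) < Nat.card K := by exact_mod_cast Nat.card_pos

open Classical in
/-- number of subgroups with given invariants -/
theorem fiber_card (R0 : AddSubgroup G) (r : G) (K0 : AddSubgroup G) (hK0 : K0 ≤ R0) (d : ℕ) :
    ((univ.filter (fun K : AddSubgroup G => K ≤ R0 ⊔ AddSubgroup.zmultiples r ∧
      (K ⊓ R0, ord (K ⊔ R0) r) = (K0, d))).card : ℝ) * Nat.card K0 ≤ Nat.card R0 := by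
  set F := univ.filter (fun K : AddSubgroup G => K ≤ R0 ⊔ AddSubgroup.zmultiples r ∧
      (K ⊓ R0, ord (K ⊔ R0) r) = (K0, d)) with hF
  have hmem : ∀ K ∈ F, K ≤ R0 ⊔ AddSubgroup.zmultiples r ∧ K ⊓ R0 = K0 ∧
      ord (K ⊔ R0) r = d := by
    intro K hK
    rw [hF, Finset.mem_filter] at hK
    exact ⟨hK.2.1, (Prod.mk.inj hK.2.2).1, (Prod.mk.inj hK.2.2).2⟩
  let f : F × K0 → R0 := fun p =>
    ⟨(zz R0 p.1.1 r - ord (p.1.1 ⊔ R0) r • r) + p.2.1,
      R0.add_mem (zz_shift R0 p.1.1 r) (hK0 p.2.2)⟩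
  have hf : Function.Injective f := by
    rintro ⟨⟨K, hK⟩, ⟨u, hu⟩⟩ ⟨⟨K', hK'⟩, ⟨u', hu'⟩⟩ h
    obtain ⟨a1, a2, a3⟩ := hmem K hK
    obtain ⟨b1, b2, b3⟩ := hmem K' hK'
    have h0 : (zz R0 K r - ord (K ⊔ R0) r • r) + u = (zz R0 K' r - ord (K' ⊔ R0) r • r) + u' :=
      congrArg Subtype.val h
    rw [a3, b3] at h0
    have h1 : zz R0 K r - zz R0 K' r = u' - u := by
      have : zz R0 K r - zz R0 K' r =
        ((zz R0 K r - d • r) + u) - ((zz R0 K' r - d • r) + u') + (u' - u) := by abel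
      rw [this, h0]; abel
    have h2 : K = K' := by
      rw [eq_sup a1, eq_sup b1, a2, b2]
      apply le_antisymm
      · refine sup_le le_sup_left ?_
        rw [AddSubgroup.zmultiples_le]
        have : zz R0 K r = (u' - u) + zz R0 K' r := by rw [← h1]; abel
        rw [this]
        exact AddSubgroup.add_mem _ (AddSubgroup.mem_sup_left (K0.sub_mem hu' hu))
          (AddSubgroup.mem_sup_right (AddSubgroup.mem_zmultiples _))
      · refine sup_le le_sup_left ?_
        rw [AddSubgroup.zmultiples_le]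
        have : zz R0 K' r = (u - u') + zz R0 K r := by
          have : u - u' = -(zz R0 K r - zz R0 K' r) := by rw [h1]; abel
          rw [this]; abel
        rw [this]
        exact AddSubgroup.add_mem _ (AddSubgroup.mem_sup_left (K0.sub_mem hu hu'))
          (AddSubgroup.mem_sup_right (AddSubgroup.mem_zmultiples _))
    subst h2
    have h3 : u = u' := add_left_cancel h0
    subst h3
    rfl
  have h := Nat.card_le_card_of_injective f hf
  rw [Nat.card_prod] at h
  have h1 : Nat.card F = F.card := by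
    rw [Nat.card_eq_fintype_card, Fintype.card_coe]
  rw [h1] at h
  exact_mod_cast h

/-- the finite zeta sum -/
noncomputable def zs (N s : ℕ) : ℝ := ∑ d ∈ Finset.Icc 1 N, (1 / (d : ℝ)) ^ s

/-- the recursive step -/
theorem S_step (R0 : AddSubgroup G) (r : G) (s : ℕ) :
    S (s + 1) (R0 ⊔ AddSubgroup.zmultiples r) ≤ zs (Nat.card G) (s + 1) * S s R0 := by
  classical
  set R := R0 ⊔ AddSubgroup.zmultiples r with hR
  have h1 : ∀ K ∈ univ.filter (fun K : AddSubgroup G => K ≤ R),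
      ((Nat.card K : ℝ) / Nat.card R) ^ (s + 1) ≤
      ((1 / (ord (K ⊔ R0) r : ℝ)) * ((Nat.card (K ⊓ R0 : AddSubgroup G) : ℝ) / Nat.card R0)) ^
        (s + 1) := by
    intro K hK
    rw [Finset.mem_filter] at hK
    have h2 := ord_mul_card_le (r := r) (R0 := R0) hK.2
    have h3 := card_sup_inf K R0
    have h2' : (ord (K ⊔ R0) r : ℝ) * Nat.card (K ⊔ R0 : AddSubgroup G) ≤ Nat.card R := by
      exact_mod_cast h2
    have h3' : (Nat.card (K ⊔ R0 : AddSubgroup G) : ℝ) * Nat.card (K ⊓ R0 : AddSubgroup G) =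
      Nat.card K * Nat.card R0 := by exact_mod_cast h3
    have p1 := cpos R
    have p2 := cpos R0
    have p3 := cpos (K ⊓ R0)
    have p4 := cpos (K ⊔ R0)
    have p5 := cpos K
    have p6 : (0 : ℝ) < ord (K ⊔ R0) r := by exact_mod_cast ord_pos _ _
    apply pow_le_pow_left₀ (by positivity)
    rw [div_mul_div_comm, one_mul, div_le_div_iff₀ p1 (by positivity)]
    calc (Nat.card K : ℝ) * (ord (K ⊔ R0) r * Nat.card R0)
        = ord (K ⊔ R0) r * (Nat.card K * Nat.card R0) := by ring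
      _ = (ord (K ⊔ R0) r * Nat.card (K ⊔ R0 : AddSubgroup G)) *
          Nat.card (K ⊓ R0 : AddSubgroup G) := by rw [← h3']; ring
      _ ≤ Nat.card R * Nat.card (K ⊓ R0 : AddSubgroup G) :=
          mul_le_mul_of_nonneg_right h2' p3.le
      _ = _ := by ring
  have h4 : S (s + 1) R ≤ ∑ K ∈ univ.filter (fun K : AddSubgroup G => K ≤ R),
      ((1 / (ord (K ⊔ R0) r : ℝ)) * ((Nat.card (K ⊓ R0 : AddSubgroup G) : ℝ) / Nat.card R0)) ^
        (s + 1) := by
    unfold S
    convert Finset.sum_le_sum h1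
  refine h4.trans ?_
  have hmaps : ∀ K ∈ univ.filter (fun K : AddSubgroup G => K ≤ R),
      (K ⊓ R0, ord (K ⊔ R0) r) ∈
        (univ.filter (fun K : AddSubgroup G => K ≤ R0)) ×ˢ Finset.Icc 1 (Nat.card G) := by
    intro K _
    rw [Finset.mem_product, Finset.mem_filter, Finset.mem_Icc]
    exact ⟨⟨Finset.mem_univ _, inf_le_right⟩, ord_pos _ _, ord_le _ _⟩
  rw [← Finset.sum_fiberwise_of_maps_to hmaps]
  have h5 : ∀ p ∈ (univ.filter (fun K : AddSubgroup G => K ≤ R0)) ×ˢ Finset.Icc 1 (Nat.card G),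
      ∑ K ∈ (univ.filter (fun K : AddSubgroup G => K ≤ R)).filter
          (fun K => (K ⊓ R0, ord (K ⊔ R0) r) = p),
        ((1 / (ord (K ⊔ R0) r : ℝ)) * ((Nat.card (K ⊓ R0 : AddSubgroup G) : ℝ) / Nat.card R0)) ^
          (s + 1) ≤ (1 / (p.2 : ℝ)) ^ (s + 1) * ((Nat.card p.1 : ℝ) / Nat.card R0) ^ s := by
    rintro ⟨K0, d⟩ hp
    rw [Finset.mem_product, Finset.mem_filter] at hp
    have h6 := fiber_card R0 r K0 hp.1.2 d
    rw [Finset.filter_filter]
    have h7 : ∀ K ∈ univ.filter (fun K : AddSubgroup G => K ≤ R ∧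
        (K ⊓ R0, ord (K ⊔ R0) r) = (K0, d)),
        ((1 / (ord (K ⊔ R0) r : ℝ)) * ((Nat.card (K ⊓ R0 : AddSubgroup G) : ℝ) / Nat.card R0)) ^
          (s + 1) = ((1 / (d : ℝ)) * ((Nat.card K0 : ℝ) / Nat.card R0)) ^ (s + 1) := by
      intro K hK
      rw [Finset.mem_filter] at hK
      rw [(Prod.mk.inj hK.2.2).1, (Prod.mk.inj hK.2.2).2]
    rw [Finset.sum_congr rfl h7, Finset.sum_const, nsmul_eq_mul, mul_pow]
    have q1 := cpos R0
    have q2 := cpos K0
    have h8 : ((univ.filter (fun K : AddSubgroup G => K ≤ R ∧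
        (K ⊓ R0, ord (K ⊔ R0) r) = (K0, d))).card : ℝ) * ((Nat.card K0 : ℝ) / Nat.card R0) ≤ 1 := by
      rw [← mul_div_assoc, div_le_one q1]
      exact h6
    have q3 : (0 : ℝ) ≤ (1 / (d : ℝ)) ^ (s + 1) := by positivity
    have q4 : (0 : ℝ) ≤ ((Nat.card K0 : ℝ) / Nat.card R0) ^ s := by positivity
    calc _ = (1 / (d : ℝ)) ^ (s + 1) * ((((univ.filter (fun K : AddSubgroup G => K ≤ R ∧
        (K ⊓ R0, ord (K ⊔ R0) r) = (K0, d))).card : ℝ) * ((Nat.card K0 : ℝ) / Nat.card R0)) *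
          ((Nat.card K0 : ℝ) / Nat.card R0) ^ s) := by rw [pow_succ (_ / _)]; ring
      _ ≤ (1 / (d : ℝ)) ^ (s + 1) * (1 * ((Nat.card K0 : ℝ) / Nat.card R0) ^ s) := by
          apply mul_le_mul_of_nonneg_left _ q3
          exact mul_le_mul_of_nonneg_right h8 q4
      _ = _ := by ring
  refine (Finset.sum_le_sum h5).trans (le_of_eq ?_)
  rw [Finset.sum_product_right]
  unfold zs S
  rw [Finset.sum_mul_sum]

theorem zs_le (N s : ℕ) (hs : 3 ≤ s) : zs N s ≤ 1 + 2 / 2 ^ s := by
  have key : ∀ N : ℕ, 1 ≤ N → ∑ d ∈ Finset.Icc 2 N, (1 / (d : ℝ)) ^ 3 ≤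
      1 / 4 - 1 / (2 * (N : ℝ) * ((N : ℝ) + 1)) := by
    intro N hN
    induction N, hN using Nat.le_induction with
    | base => norm_num
    | succ k hk ih =>
      rw [Finset.sum_Icc_succ_top (by omega)]
      have hk' : (1 : ℝ) ≤ k := by exact_mod_cast hk
      have : (1 / ((k + 1 : ℕ) : ℝ)) ^ 3 ≤ 1 / (2 * (k : ℝ) * ((k : ℝ) + 1)) -
          1 / (2 * ((k + 1 : ℕ) : ℝ) * (((k + 1 : ℕ) : ℝ) + 1)) := by
        push_cast
        have e : 1 / (2 * (k : ℝ) * (k + 1)) - 1 / (2 * ((k : ℝ) + 1) * ((k : ℝ) + 1 + 1)) =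
            1 / (k * (k + 1) * (k + 2)) := by
          field_simp
          ring
        rw [e, one_div_pow]
        apply one_div_le_one_div_of_le (by positivity)
        nlinarith
      linarith
  rcases Nat.eq_zero_or_pos N with rfl | hN
  · simp [zs]
    positivity
  have h1 : zs N s = 1 + ∑ d ∈ Finset.Icc 2 N, (1 / (d : ℝ)) ^ s := by
    unfold zs
    have := Finset.sum_Ioc_add_eq_sum_Icc (f := fun d : ℕ => (1 / (d : ℝ)) ^ s) hN
    rw [← this]
    have e : Finset.Ioc 1 N = Finset.Icc 2 N := by ext; simp [Finset.mem_Ioc, Finset.mem_Icc]; omega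
    rw [e]
    simp
    ring
  have h2 : ∀ d ∈ Finset.Icc 2 N, (1 / (d : ℝ)) ^ s ≤ (1 / 2) ^ (s - 3) * (1 / (d : ℝ)) ^ 3 := by
    intro d hd
    rw [Finset.mem_Icc] at hd
    have hd' : (2 : ℝ) ≤ d := by exact_mod_cast hd.1
    have : (1 / (d : ℝ)) ^ s = (1 / (d : ℝ)) ^ (s - 3) * (1 / (d : ℝ)) ^ 3 := by
      rw [← pow_add]; congr 1; omega
    rw [this]
    apply mul_le_mul_of_nonneg_right _ (by positivity)
    apply pow_le_pow_left₀ (by positivity)
    apply one_div_le_one_div_of_le (by norm_num) hd'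
  rw [h1]
  have h3 := (Finset.sum_le_sum h2)
  rw [← Finset.mul_sum] at h3
  have h4 : ∑ d ∈ Finset.Icc 2 N, (1 / (d : ℝ)) ^ 3 ≤ 1 / 4 :=
    (key N hN).trans (by
      have : (0 : ℝ) ≤ 1 / (2 * (N : ℝ) * ((N : ℝ) + 1)) := by positivity
      linarith)
  have h5 : (1 / 2 : ℝ) ^ (s - 3) * (1 / 4) = 2 / 2 ^ s := by
    have : (2 : ℝ) ^ s = 2 ^ (s - 3) * 8 := by
      rw [show (8 : ℝ) = 2 ^ 3 by norm_num, ← pow_add]; congr 1; omega
    rw [this, one_div_pow]
    field_simp
    norm_num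
  have h6 : (1 / 2 : ℝ) ^ (s - 3) * ∑ d ∈ Finset.Icc 2 N, (1 / (d : ℝ)) ^ 3 ≤ 2 / 2 ^ s := by
    rw [← h5]
    exact mul_le_mul_of_nonneg_left h4 (by positivity)
  linarith

theorem S_nonneg (s : ℕ) (R : AddSubgroup G) : 0 ≤ S s R := by
  unfold S
  exact Finset.sum_nonneg fun K _ => by positivity

/-- the bound for a group with `k` generators -/
theorem S_le (k : ℕ) : ∀ (s : ℕ) (g : Fin k → G), k + 2 ≤ s → 2 * 2 ^ k ≤ (2 : ℝ) ^ s →
    S s (AddSubgroup.closure (Set.range g)) * (1 - 2 / 2 ^ s * (2 ^ k - 1)) ≤ 1 := by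
  classical
  induction k with
  | zero =>
    intro s g _ _
    have h0 : AddSubgroup.closure (Set.range g) = ⊥ := by
      rw [Set.range_eq_empty, AddSubgroup.closure_empty]
    rw [h0]
    have h1 : S s (⊥ : AddSubgroup G) = 1 := by
      unfold S
      have : univ.filter (fun K : AddSubgroup G => K ≤ ⊥) = {⊥} := by
        ext K; simp
      rw [this]
      simp
    rw [h1]
    simp
  | succ k ih =>
    intro s g hs hs2
    obtain ⟨s, rfl⟩ : ∃ t, s = t + 1 := ⟨s - 1, by omega⟩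
    have h1 : AddSubgroup.closure (Set.range g) =
        AddSubgroup.closure (Set.range (fun i : Fin k => g i.castSucc)) ⊔
          AddSubgroup.zmultiples (g (Fin.last k)) := by
      rw [AddSubgroup.zmultiples_eq_closure, ← AddSubgroup.closure_union]
      congr 1
      ext x
      simp only [Set.mem_range, Set.mem_union, Set.mem_singleton_iff]
      constructor
      · rintro ⟨i, rfl⟩
        refine Fin.lastCases (Or.inr rfl) (fun j => Or.inl ⟨j, rfl⟩) i
      · rintro (⟨j, rfl⟩ | rfl)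
        · exact ⟨_, rfl⟩
        · exact ⟨_, rfl⟩
    have h2 := S_step (AddSubgroup.closure (Set.range (fun i : Fin k => g i.castSucc)))
      (g (Fin.last k)) s
    rw [← h1] at h2
    have h3 := zs_le (Nat.card G) (s + 1) (by omega)
    have hs3 : 2 * 2 ^ k ≤ (2 : ℝ) ^ s := by
      rw [pow_succ, pow_succ] at hs2
      linarith
    have h4 := ih s (fun i => g i.castSucc) (by omega) hs3
    set a := S s (AddSubgroup.closure (Set.range (fun i : Fin k => g i.castSucc))) with ha
    have ha0 : 0 ≤ a := S_nonneg _ _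
    set x : ℝ := 2 / 2 ^ (s + 1) with hx
    have hx0 : 0 < x := by positivity
    have hx1 : 2 / (2 : ℝ) ^ s = 2 * x := by
      rw [hx, pow_succ]; field_simp
    rw [hx1] at h4
    have h5 : S (s + 1) (AddSubgroup.closure (Set.range g)) ≤ (1 + x) * a :=
      h2.trans (mul_le_mul_of_nonneg_right h3 ha0)
    have hq : x * 2 ^ (k + 1) ≤ 1 / 1 := by
      rw [hx]
      rw [div_mul_eq_mul_div, div_le_div_iff₀ (by positivity) one_pos]
      linarith
    have h6 : 0 ≤ 1 - x * (2 ^ (k + 1) - 1) := by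
      have : x * (2 ^ (k + 1) - 1) = x * 2 ^ (k + 1) - x := by ring
      rw [this]; linarith
    calc S (s + 1) (AddSubgroup.closure (Set.range g)) * (1 - x * (2 ^ (k + 1) - 1))
        ≤ (1 + x) * a * (1 - x * (2 ^ (k + 1) - 1)) := mul_le_mul_of_nonneg_right h5 h6
      _ = a * ((1 + x) * (1 - x * (2 ^ (k + 1) - 1))) := by ring
      _ ≤ a * (1 - 2 * x * (2 ^ k - 1)) := by
          apply mul_le_mul_of_nonneg_left _ ha0
          have hA : (1 : ℝ) ≤ 2 ^ k := one_le_pow₀ (by norm_num)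
          have : 0 ≤ x * x * (2 * 2 ^ k - 1) := by
            apply mul_nonneg (by positivity); linarith
          rw [pow_succ]
          nlinarith
      _ ≤ 1 := h4

end general

end Pool.Agent.K4H31.LPH
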