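import Pool.Agent.K4H31.LPH.Dual
import Pool.Agent.K4H31.LPH.Zeta

/-!
The lattices between `m ℤⁿ` and `ℤⁿ`.
-/

namespace Pool.Agent.K4H31.LPH

open Finset Matrix

variable {n m : ℕ}

/-- reduction modulo `m` -/
def red (n m : ℕ) : (Fin n → ℤ) →+ Gp n m where
  toFun z := fun i => (z i : ZMod m)
  map_zero' := by funext i; simp
  map_add' := by intro a b; funext i; simp

theorem red_apply (z : Fin n → ℤ) (i : Fin n) : red n m z i = (z i : ZMod m) := rfl

variable [NeZero m]

omit [NeZero m] in
theorem red_surj : Function.Surjective (red n m) := by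
  intro x
  refine ⟨fun i => (x i).valMinAbs, ?_⟩
  funext i
  simp [red_apply]

theorem card_Gp : Nat.card (Gp n m) = m ^ n := by
  rw [Nat.card_eq_fintype_card, Fintype.card_fun, ZMod.card, Fintype.card_fin]

theorem exists_basis (U : AddSubgroup (Gp n m)) : ∃ B : Matrix (Fin n) (Fin n) ℤ,
    (∀ w : Fin n → ℤ, red n m (B.mulVec w) ∈ U) ∧
    (∀ z : Fin n → ℤ, red n m z ∈ U → ∃ w : Fin n → ℤ, B.mulVec w = z) ∧
    B.det.natAbs * Nat.card U = m ^ n := by
  set L : AddSubgroup (Fin n → ℤ) := U.comap (red n m) with hL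
  have hidx : L.index = U.index := AddSubgroup.index_comap_of_surjective U red_surj
  have hUi : U.index ≠ 0 := AddSubgroup.index_ne_zero_of_finite
  have hfi : L.FiniteIndex := ⟨by rw [hidx]; exact hUi⟩
  have hfin0 : Finite ((Fin n → ℤ) ⧸ L) := AddSubgroup.finite_quotient_of_finiteIndex
  set N := AddSubgroup.toIntSubmodule L with hN
  have hfin : Finite ((Fin n → ℤ) ⧸ N) := hfin0
  have hrank : Module.finrank ℤ N = n := by
    rw [(Submodule.finiteQuotient_iff N).mp hfin]
    simp
  let b : Module.Basis (Fin n) ℤ N := Module.finBasisOfFinrankEq ℤ N hrank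
  let b' : Module.Basis (Fin n) ℤ L := b
  have hdet := AddSubgroup.index_eq_natAbs_det (Pi.basisFun ℤ (Fin n)) L b'
  rw [Pi.basisFun_det_apply] at hdet
  have hsum : ∀ w : Fin n → ℤ, (Matrix.of fun i j => (b' j : Fin n → ℤ) i).mulVec w =
      ((∑ j, w j • b' j : L) : Fin n → ℤ) := by
    intro w
    funext i
    rw [Matrix.mulVec, dotProduct]
    push_cast
    simp only [Finset.sum_apply, Pi.smul_apply, smul_eq_mul, Matrix.of_apply]
    exact Finset.sum_congr rfl fun j _ => mul_comm _ _
  refine ⟨Matrix.of fun i j => (b' j : Fin n → ℤ) i, ?_, ?_, ?_⟩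
  · intro w
    rw [hsum]
    exact (∑ j, w j • b' j : L).2
  · intro z hx
    have hz : z ∈ L := hx
    refine ⟨fun j => b'.repr ⟨z, hz⟩ j, ?_⟩
    rw [hsum, b'.sum_repr]
  · have h1 : (Matrix.of fun i j => (b' j : Fin n → ℤ) i).det.natAbs = L.index := by
      rw [hdet, ← Matrix.det_transpose]
      rfl
    rw [h1, hidx, mul_comm, AddSubgroup.card_mul_index, card_Gp]

/-- a subgroup of `(ℤ/m)^n` has `n` generators -/
theorem exists_gens (U : AddSubgroup (Gp n m)) : ∃ g : Fin n → Gp n m,
    AddSubgroup.closure (Set.range g) = U := by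
  obtain ⟨B, h1, h2, -⟩ := exists_basis U
  refine ⟨fun j => red n m (B.mulVec (Pi.single j 1)), ?_⟩
  apply le_antisymm
  · rw [AddSubgroup.closure_le]
    rintro _ ⟨j, rfl⟩
    exact h1 _
  · intro x hx
    obtain ⟨z, rfl⟩ := red_surj x
    obtain ⟨w, rfl⟩ := h2 z hx
    have hw : B.mulVec w = ∑ j, w j • B.mulVec (Pi.single j 1) := by
      funext i
      simp only [Matrix.mulVec, dotProduct, Finset.sum_apply, Pi.smul_apply, smul_eq_mul]
      refine Finset.sum_congr rfl fun j _ => ?_
      rw [Finset.sum_eq_single j]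
      · simp [mul_comm]
      · intro k _ hk
        simp [hk]
      · simp
    rw [hw, map_sum]
    apply AddSubgroup.sum_mem
    intro j _
    rw [map_zsmul]
    exact AddSubgroup.zsmul_mem _ (AddSubgroup.subset_closure (Set.mem_range_self j)) _

end Pool.Agent.K4H31.LPH
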