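import Pool.Agent.K4H31.LPH.Main
import Pool.Agent.H160R3.Herm.Main

/-!
Lattices and subgroups of `(ℤ/m)^n`.
-/

namespace Pool.Agent.K4H31.LPH

open Finset Matrix Filter Topology
open Pool.Agent.H160R3.Herm

variable {n m : ℕ}

/-- squared length of the shortest integer representative -/
def nrm (x : Gp n m) : ℤ := ∑ i, (x i).valMinAbs ^ 2

/-- subgroup without nonzero elements of squared length `< d` -/
def Ok (d : ℕ) (U : AddSubgroup (Gp n m)) : Prop := ∀ u ∈ U, u ≠ 0 → (d : ℤ) ≤ nrm u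

variable [NeZero m]

theorem nrm_le (z : Fin n → ℤ) : nrm (red n m z) ≤ ∑ i, z i ^ 2 := by
  unfold nrm
  refine Finset.sum_le_sum fun i _ => ?_
  have h1 : ((((z i : ZMod m)).valMinAbs : ℤ) : ZMod m) = ((z i : ℤ) : ZMod m) := by
    rw [ZMod.coe_valMinAbs]
  have h2 := ZMod.natAbs_min_of_le_div_two m _ _ h1 (ZMod.natAbs_valMinAbs_le _)
  rw [red_apply]
  exact Int.natAbs_le_iff_sq_le.mp h2

/-- the real matrix of an integer matrix -/
def toR (B : Matrix (Fin n) (Fin n) ℤ) : Matrix (Fin n) (Fin n) ℝ := B.map (fun z : ℤ => (z : ℝ))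

omit [NeZero m] in
theorem toR_mulVec (B : Matrix (Fin n) (Fin n) ℤ) (w : Fin n → ℤ) (i : Fin n) :
    (toR B).mulVec (fun j => (w j : ℝ)) i = ((B.mulVec w i : ℤ) : ℝ) := by
  simp [toR, Matrix.mulVec, dotProduct]

omit [NeZero m] in
theorem toR_det (B : Matrix (Fin n) (Fin n) ℤ) : (toR B).det = (B.det : ℝ) := by
  have := RingHom.map_det (Int.castRingHom ℝ) B
  simp only [RingHom.mapMatrix_apply] at this
  exact this.symm

omit [NeZero m] in
theorem sumsq_toR (B : Matrix (Fin n) (Fin n) ℤ) (w : Fin n → ℤ) :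
    ∑ i, ((toR B).mulVec (fun j => (w j : ℝ)) i) ^ 2 = ((∑ i, B.mulVec w i ^ 2 : ℤ) : ℝ) := by
  push_cast
  exact Finset.sum_congr rfl fun i _ => by rw [toR_mulVec]

omit [NeZero m] in
theorem mulVec_ne {B : Matrix (Fin n) (Fin n) ℤ} (hB : B.det ≠ 0) {w : Fin n → ℤ} (hw : w ≠ 0) :
    B.mulVec w ≠ 0 := by
  intro h
  apply hw
  have h1 : (B.adjugate * B).mulVec w = 0 := by
    rw [← Matrix.mulVec_mulVec, h, Matrix.mulVec_zero]
  rw [Matrix.adjugate_mul, Matrix.smul_mulVec, Matrix.one_mulVec] at h1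
  funext i
  have h2 := congrFun h1 i
  simp only [Pi.smul_apply, smul_eq_mul, Pi.zero_apply, mul_eq_zero] at h2
  exact h2.resolve_left hB

omit [NeZero m] in
theorem sumsq_pos {z : Fin n → ℤ} (hz : z ≠ 0) : 0 < ∑ i, z i ^ 2 := by
  obtain ⟨i, hi⟩ : ∃ i, z i ≠ 0 := by
    by_contra hc
    push Not at hc
    exact hz (funext hc)
  exact lt_of_lt_of_le (pow_pos_of_sq hi) (Finset.single_le_sum (f := fun i => z i ^ 2)
    (fun j _ => sq_nonneg _) (Finset.mem_univ i))
where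
  pow_pos_of_sq {a : ℤ} (ha : a ≠ 0) : 0 < a ^ 2 := by positivity

theorem ge_sq_of_red_zero {z : Fin n → ℤ} (hz : z ≠ 0) (h : red n m z = 0) :
    (m : ℤ) ^ 2 ≤ ∑ i, z i ^ 2 := by
  have h1 : ∀ i, (m : ℤ) ∣ z i := by
    intro i
    rw [← ZMod.intCast_zmod_eq_zero_iff_dvd]
    exact congrFun h i
  choose q hq using h1
  have hq0 : q ≠ 0 := by
    rintro rfl
    apply hz
    funext i
    rw [hq i]; simp
  have h2 := sumsq_pos hq0
  have h3 : ∑ i, z i ^ 2 = (m : ℤ) ^ 2 * ∑ i, q i ^ 2 := by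
    rw [Finset.mul_sum]
    exact Finset.sum_congr rfl fun i _ => by rw [hq i]; ring
  rw [h3]
  nlinarith [sq_nonneg (m : ℤ)]

/-- the Hermite constant is at least the value of an allowed subgroup -/
theorem value_le_hermite (hn : 0 < n) {d : ℕ} (hd : d ≤ m ^ 2) {U : AddSubgroup (Gp n m)}
    (hU : Ok d U) : (d : ℝ) * sz U ^ ((2 : ℝ) / n) / (m : ℝ) ^ 2 ≤ hermite n := by
  obtain ⟨B, h1, -, h3⟩ := exists_basis U
  have hm : (0 : ℝ) < m := by exact_mod_cast Nat.pos_of_ne_zero (NeZero.ne m)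
  have hn' : (0 : ℝ) < n := by exact_mod_cast hn
  have hdet : B.det ≠ 0 := by
    intro h
    rw [h] at h3
    simp only [Int.natAbs_zero, zero_mul] at h3
    exact (pow_pos (Nat.pos_of_ne_zero (NeZero.ne m)) n).ne h3
  have hdetR : (toR B).det ≠ 0 := by
    rw [toR_det]; exact_mod_cast hdet
  have hmin : (d : ℝ) ≤ minSq (toR B) := by
    apply le_minSq hn
    intro w hw
    rw [sumsq_toR]
    have hz := mulVec_ne hdet hw
    have : (d : ℤ) ≤ ∑ i, B.mulVec w i ^ 2 := by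
      by_cases h0 : red n m (B.mulVec w) = 0
      · exact le_trans (by exact_mod_cast hd) (ge_sq_of_red_zero hz h0)
      · exact (hU _ (h1 w) h0).trans (nrm_le _)
    exact_mod_cast this
  have hle := le_hermite hn (toR B) hdetR
  refine le_trans ?_ hle
  have habs : |(toR B).det| * sz U = (m : ℝ) ^ n := by
    rw [toR_det]
    unfold sz
    have : ((B.det.natAbs : ℕ) : ℝ) = |(B.det : ℝ)| := by
      rw [Nat.cast_natAbs]; push_cast; rfl
    rw [← this]
    exact_mod_cast h3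
  have hp : 0 < |(toR B).det| := abs_pos.mpr hdetR
  have e1 : |(toR B).det| ^ ((2 : ℝ) / n) * sz U ^ ((2 : ℝ) / n) = (m : ℝ) ^ 2 := by
    rw [← Real.mul_rpow hp.le (sz_pos U).le, habs, ← Real.rpow_natCast, ← Real.rpow_mul hm.le]
    rw [mul_div_cancel₀ _ hn'.ne']
    norm_cast
  have hp2 : 0 < |(toR B).det| ^ ((2 : ℝ) / n) := Real.rpow_pos_of_pos hp _
  rw [div_le_div_iff₀ (by positivity) hp2, ← e1]
  calc (d : ℝ) * sz U ^ ((2 : ℝ) / n) * |(toR B).det| ^ ((2 : ℝ) / n)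
      = d * (|(toR B).det| ^ ((2 : ℝ) / n) * sz U ^ ((2 : ℝ) / n)) := by ring
    _ ≤ minSq (toR B) * (|(toR B).det| ^ ((2 : ℝ) / n) * sz U ^ ((2 : ℝ) / n)) := by
        apply mul_le_mul_of_nonneg_right hmin
        rw [e1]; positivity

/-- integral lattices give allowed subgroups -/
theorem exists_allowed (hn : 0 < n) (B : Matrix (Fin n) (Fin n) ℤ) (hB : B.det ≠ 0) :
    ∃ (m : ℕ) (_ : NeZero m) (d : ℕ) (U : AddSubgroup (Gp n m)), d ≤ m ^ 2 ∧ Ok d U ∧
      minSq (toR B) / |(toR B).det| ^ ((2 : ℝ) / n) ≤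
        (d : ℝ) * sz U ^ ((2 : ℝ) / n) / (m : ℝ) ^ 2 := by
  classical
  set m := B.det.natAbs with hm
  have hm0 : 0 < m := Int.natAbs_pos.mpr hB
  have hne : NeZero m := ⟨hm0.ne'⟩
  have hn' : (0 : ℝ) < n := by exact_mod_cast hn
  let φ : (Fin n → ℤ) →+ Gp n m := (red n m).comp B.mulVecLin.toAddMonoidHom
  have hφ : ∀ w, φ w = red n m (B.mulVec w) := fun w => rfl
  set U : AddSubgroup (Gp n m) := φ.range with hU
  -- multiples of `m` are in the lattice
  have hmz : ∀ z : Fin n → ℤ, ∃ w, B.mulVec w = (m : ℤ) • z := by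
    intro z
    have h1 : B.mulVec (B.adjugate.mulVec z) = B.det • z := by
      rw [Matrix.mulVec_mulVec, Matrix.mul_adjugate, Matrix.smul_mulVec, Matrix.one_mulVec]
    rcases Int.natAbs_eq B.det with h | h
    · refine ⟨B.adjugate.mulVec z, ?_⟩
      rw [h1]
      congr 1
    · refine ⟨-B.adjugate.mulVec z, ?_⟩
      rw [Matrix.mulVec_neg, h1, ← neg_smul]
      congr 1
      rw [hm]; omega
  have hmem : ∀ z : Fin n → ℤ, red n m z ∈ U → ∃ w, B.mulVec w = z := by
    rintro z ⟨w, hw⟩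
    rw [hφ] at hw
    have h1 : ∀ i, (m : ℤ) ∣ z i - B.mulVec w i := by
      intro i
      rw [← ZMod.intCast_eq_intCast_iff_dvd_sub]
      exact congrFun hw i
    choose q hq using h1
    obtain ⟨w', hw'⟩ := hmz q
    refine ⟨w + w', ?_⟩
    rw [Matrix.mulVec_add, hw']
    funext i
    have := hq i
    simp only [Pi.add_apply, Pi.smul_apply, smul_eq_mul]
    linarith
  -- the minimum
  have hex : ∃ k : ℕ, ∃ w : Fin n → ℤ, w ≠ 0 ∧ ∑ i, B.mulVec w i ^ 2 = (k : ℤ) := by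
    refine ⟨(∑ i, B.mulVec (fun _ => 1) i ^ 2).toNat, fun _ => 1, ?_, ?_⟩
    · intro h
      have := congrFun h ⟨0, hn⟩
      simp at this
    · rw [Int.toNat_of_nonneg (Finset.sum_nonneg fun i _ => sq_nonneg _)]
  set d := Nat.find hex with hd
  obtain ⟨w0, hw0, hw0d⟩ := Nat.find_spec hex
  have hmin : ∀ w : Fin n → ℤ, w ≠ 0 → (d : ℤ) ≤ ∑ i, B.mulVec w i ^ 2 := by
    intro w hw
    have h0 : (0 : ℤ) ≤ ∑ i, B.mulVec w i ^ 2 := Finset.sum_nonneg fun i _ => sq_nonneg _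
    obtain ⟨k, hk⟩ := Int.eq_ofNat_of_zero_le h0
    rw [hk]
    exact_mod_cast Nat.find_min' hex ⟨w, hw, hk⟩
  have hminR : minSq (toR B) ≤ d := by
    refine (minSq_le (toR B) w0 hw0).trans (le_of_eq ?_)
    rw [sumsq_toR, hw0d]
    norm_cast
  refine ⟨m, hne, d, U, ?_, ?_, ?_⟩
  · obtain ⟨w, hw⟩ := hmz (Pi.single ⟨0, hn⟩ 1)
    have hwne : w ≠ 0 := by
      rintro rfl
      rw [Matrix.mulVec_zero] at hw
      have := congrFun hw ⟨0, hn⟩
      simp at this
      omega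
    have h1 := hmin w hwne
    rw [hw] at h1
    have h2 : ∑ i, ((m : ℤ) • (Pi.single ⟨0, hn⟩ 1 : Fin n → ℤ)) i ^ 2 = (m : ℤ) ^ 2 := by
      rw [Finset.sum_eq_single ⟨0, hn⟩]
      · simp
      · intro j _ hj
        simp [hj]
      · simp
    rw [h2] at h1
    exact_mod_cast h1
  · intro u hu hu0
    set z : Fin n → ℤ := fun i => (u i).valMinAbs with hz
    have hzu : red n m z = u := by
      funext i
      rw [red_apply, hz]
      simp
    obtain ⟨w, hw⟩ := hmem z (by rw [hzu]; exact hu)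
    have hwne : w ≠ 0 := by
      rintro rfl
      rw [Matrix.mulVec_zero] at hw
      apply hu0
      rw [← hzu, ← hw, map_zero]
    have h1 := hmin w hwne
    rw [hw] at h1
    exact h1
  · obtain ⟨B', -, h2, h3⟩ := exists_basis U
    have hcol : ∀ j, ∃ w : Fin n → ℤ, B'.mulVec w = B.mulVec (Pi.single j 1) := by
      intro j
      exact h2 _ ⟨Pi.single j 1, rfl⟩
    choose q hq using hcol
    have hBQ : B' * (Matrix.of fun i j => q j i) = B := by
      ext i j
      have h := congrFun (hq j) i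
      rw [Matrix.mulVec_single_one] at h
      rw [Matrix.mul_apply]
      exact h
    have hdetQ : B'.det * (Matrix.of fun i j => q j i).det = B.det := by
      rw [← Matrix.det_mul, hBQ]
    have hQ0 : (Matrix.of fun i j => q j i).det ≠ 0 := by
      intro h
      rw [h, mul_zero] at hdetQ
      exact hB hdetQ.symm
    have hle : B'.det.natAbs ≤ B.det.natAbs := by
      rw [← hdetQ, Int.natAbs_mul]
      exact Nat.le_mul_of_pos_right _ (Int.natAbs_pos.mpr hQ0)
    have hdetR : (toR B).det ≠ 0 := by rw [toR_det]; exact_mod_cast hB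
    have hp : 0 < |(toR B).det| := abs_pos.mpr hdetR
    have hmR : (0 : ℝ) < m := by exact_mod_cast hm0
    have habs : (m : ℝ) ^ n ≤ |(toR B).det| * sz U := by
      have e : |(toR B).det| = ((B.det.natAbs : ℕ) : ℝ) := by
        rw [toR_det, Nat.cast_natAbs]; push_cast; rfl
      rw [e]
      unfold sz
      have : m ^ n ≤ B.det.natAbs * Nat.card U := by
        rw [← h3]; exact Nat.mul_le_mul_right _ hle
      exact_mod_cast this
    have e1 : (m : ℝ) ^ 2 ≤ |(toR B).det| ^ ((2 : ℝ) / n) * sz U ^ ((2 : ℝ) / n) := by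
      rw [← Real.mul_rpow hp.le (sz_pos U).le]
      have e2 : (m : ℝ) ^ 2 = ((m : ℝ) ^ n) ^ ((2 : ℝ) / n) := by
        rw [← Real.rpow_natCast (m : ℝ) n, ← Real.rpow_mul hmR.le, mul_div_cancel₀ _ hn'.ne']
        norm_cast
      rw [e2]
      exact Real.rpow_le_rpow (by positivity) habs (by positivity)
    have hp2 : 0 < |(toR B).det| ^ ((2 : ℝ) / n) := Real.rpow_pos_of_pos hp _
    rw [div_le_div_iff₀ hp2 (by positivity)]
    calc minSq (toR B) * (m : ℝ) ^ 2 ≤ d * (m : ℝ) ^ 2 :=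
          mul_le_mul_of_nonneg_right hminR (by positivity)
      _ ≤ d * (|(toR B).det| ^ ((2 : ℝ) / n) * sz U ^ ((2 : ℝ) / n)) :=
          mul_le_mul_of_nonneg_left e1 (by positivity)
      _ = _ := by ring

end Pool.Agent.K4H31.LPH
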