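import Pool.Agent.K4H31.LPH.Lat

/-!
The linear programming hierarchy: the main inequality.
-/

namespace Pool.Agent.K4H31.LPH

open Finset
open scoped Classical

variable {n m ℓ : ℕ}

/-- tuples -/
abbrev Tu (n m ℓ : ℕ) := Fin ℓ → Gp n m

/-- the generated subgroup -/
def gen (X : Tu n m ℓ) : AddSubgroup (Gp n m) := AddSubgroup.closure (Set.range X)

theorem gen_le {X : Tu n m ℓ} {K : AddSubgroup (Gp n m)} : gen X ≤ K ↔ ∀ j, X j ∈ K := by
  unfold gen
  rw [AddSubgroup.closure_le]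
  constructor
  · intro h j
    exact h (Set.mem_range_self j)
  · rintro h _ ⟨j, rfl⟩
    exact h j

/-- the pairing of tuples -/
def PT (X Y : Tu n m ℓ) : ZMod m := ∑ j, pr (X j) (Y j)

variable [NeZero m]

/-- the cosine of the pairing -/
noncomputable def cs (X Y : Tu n m ℓ) : ℝ := (ZMod.stdAddChar (PT X Y)).re

omit [NeZero m] in
theorem map_sum_prod {ι : Type} (ψ : AddChar (ZMod m) ℂ) (s : Finset ι) (f : ι → ZMod m) :
    ψ (∑ j ∈ s, f j) = ∏ j ∈ s, ψ (f j) := by
  induction s using Finset.induction_on with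
  | empty => simp
  | insert i s hi ih => rw [Finset.sum_insert hi, Finset.prod_insert hi, AddChar.map_add_eq_mul, ih]

theorem tupleSum (K : AddSubgroup (Gp n m)) (X : Tu n m ℓ) :
    ∑ Y ∈ univ.filter (fun Y : Tu n m ℓ => gen Y ≤ K), cs X Y =
      if gen X ≤ perp K then sz K ^ ℓ else 0 := by
  have h1 : univ.filter (fun Y : Tu n m ℓ => gen Y ≤ K) =
      Fintype.piFinset (fun _ => univ.filter (fun y => y ∈ K)) := by
    ext Y
    simp [gen_le, Fintype.mem_piFinset]
  have h2 : ∑ Y ∈ univ.filter (fun Y : Tu n m ℓ => gen Y ≤ K), ZMod.stdAddChar (PT X Y) =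
      ∏ j : Fin ℓ, (if X j ∈ perp K then (Nat.card K : ℂ) else 0) := by
    rw [h1]
    have h3 : ∀ j : Fin ℓ, (if X j ∈ perp K then (Nat.card K : ℂ) else 0) =
        ∑ y ∈ univ.filter (fun y => y ∈ K), ZMod.stdAddChar (pr (X j) y) :=
      fun j => (charSum K (X j)).symm
    rw [Finset.prod_congr rfl fun j _ => h3 j, Finset.prod_univ_sum]
    refine Finset.sum_congr rfl fun Y _ => ?_
    unfold PT
    exact map_sum_prod _ _ _
  have h4 : ∑ Y ∈ univ.filter (fun Y : Tu n m ℓ => gen Y ≤ K), cs X Y =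
      (∏ j : Fin ℓ, (if X j ∈ perp K then (Nat.card K : ℂ) else 0)).re := by
    rw [← h2, Complex.re_sum]
    rfl
  rw [h4]
  by_cases h : gen X ≤ perp K
  · rw [if_pos h, Finset.prod_congr rfl fun j _ => if_pos (gen_le.mp h j)]
    rw [Finset.prod_const, Finset.card_univ, Fintype.card_fin]
    unfold sz
    rw [← Complex.ofReal_natCast, ← Complex.ofReal_pow, Complex.ofReal_re]
  · rw [if_neg h]
    have : ∃ j, X j ∉ perp K := by
      by_contra hc
      push Not at hc
      exact h (gen_le.mpr hc)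
    obtain ⟨j, hj⟩ := this
    rw [Finset.prod_eq_zero (Finset.mem_univ j) (if_neg hj)]
    rfl

/-- sum over tuples generating `K` -/
noncomputable def fib (f : Tu n m ℓ → ℝ) (K : AddSubgroup (Gp n m)) : ℝ :=
  ∑ X ∈ univ.filter (fun X : Tu n m ℓ => gen X = K), f X

/-- sum over tuples in `K` -/
noncomputable def cum (f : Tu n m ℓ → ℝ) (K : AddSubgroup (Gp n m)) : ℝ :=
  ∑ X ∈ univ.filter (fun X : Tu n m ℓ => gen X ≤ K), f X

theorem cum_eq (f : Tu n m ℓ → ℝ) (K : AddSubgroup (Gp n m)) :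
    cum f K = ∑ K' ∈ univ.filter (fun K' => K' ≤ K), fib f K' := by
  unfold cum fib
  rw [← Finset.sum_fiberwise_of_maps_to (s := univ.filter (fun X : Tu n m ℓ => gen X ≤ K))
    (t := univ.filter (fun K' => K' ≤ K)) (g := gen)
    (fun X hX => by simpa using hX)]
  refine Finset.sum_congr rfl fun K' hK' => ?_
  rw [Finset.mem_filter] at hK'
  rw [Finset.filter_filter]
  refine Finset.sum_congr ?_ fun _ _ => rfl
  ext X
  simp only [Finset.mem_filter, Finset.mem_univ, true_and]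
  constructor
  · exact fun h => h.2
  · exact fun h => ⟨h ▸ hK'.2, h⟩

/-- number of generating tuples -/
noncomputable def Nn (ℓ : ℕ) (K : AddSubgroup (Gp n m)) : ℝ := fib (fun _ : Tu n m ℓ => (1 : ℝ)) K

theorem cum_one (K : AddSubgroup (Gp n m)) :
    ∑ K' ∈ univ.filter (fun K' => K' ≤ K), Nn ℓ K' = sz K ^ ℓ := by
  have h := cum_eq (fun _ : Tu n m ℓ => (1 : ℝ)) K
  unfold Nn
  rw [← h]
  have h2 := tupleSum K (0 : Tu n m ℓ)
  rw [if_pos] at h2
  · rw [← h2]
    unfold cum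
    refine Finset.sum_congr rfl fun Y _ => ?_
    unfold cs PT
    have : ∑ j, pr ((0 : Tu n m ℓ) j) (Y j) = 0 :=
      Finset.sum_eq_zero fun j _ => by rw [Pi.zero_apply, pr_comm, pr_zero]
    rw [this, AddChar.map_zero_eq_one]
    rfl
  · rw [gen_le]
    exact fun j => (perp K).zero_mem

theorem Nn_nonneg (K : AddSubgroup (Gp n m)) : 0 ≤ Nn ℓ K := by
  unfold Nn fib
  exact Finset.sum_nonneg fun _ _ => zero_le_one

theorem Nn_le (K : AddSubgroup (Gp n m)) : Nn ℓ K ≤ sz K ^ ℓ := by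
  rw [← cum_one K]
  exact Finset.single_le_sum (f := fun K' => Nn ℓ K') (fun K' _ => Nn_nonneg K')
    (by simp)

theorem filter_le_eq (K : AddSubgroup (Gp n m)) : univ.filter (fun K' => K' ≤ K) =
    insert K (univ.filter (fun K' => K' < K)) := by
  ext K'
  simp only [Finset.mem_filter, Finset.mem_univ, true_and, Finset.mem_insert]
  exact le_iff_eq_or_lt

theorem sum_le_eq (f : AddSubgroup (Gp n m) → ℝ) (K : AddSubgroup (Gp n m)) :
    ∑ K' ∈ univ.filter (fun K' => K' ≤ K), f K' =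
      f K + ∑ K' ∈ univ.filter (fun K' => K' < K), f K' := by
  rw [filter_le_eq, Finset.sum_insert (by simp)]

theorem S_eq (K : AddSubgroup (Gp n m)) :
    S ℓ K = 1 + ∑ K' ∈ univ.filter (fun K' => K' < K), (sz K' / sz K) ^ ℓ := by
  have h : S ℓ K = ∑ K' ∈ univ.filter (fun K' => K' ≤ K), (sz K' / sz K) ^ ℓ := by
    unfold S sz
    rfl
  rw [h, sum_le_eq (fun K' => (sz K' / sz K) ^ ℓ) K, div_self (sz_pos K).ne', one_pow]

theorem Nn_ge {η : ℝ} (hη : ∀ K : AddSubgroup (Gp n m), S ℓ K ≤ 2 - η)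
    (K : AddSubgroup (Gp n m)) : η * sz K ^ ℓ ≤ Nn ℓ K := by
  have h1 := cum_one (ℓ := ℓ) K
  rw [sum_le_eq] at h1
  have h2 : ∑ K' ∈ univ.filter (fun K' => K' < K), Nn ℓ K' ≤
      ∑ K' ∈ univ.filter (fun K' => K' < K), (sz K' / sz K) ^ ℓ * sz K ^ ℓ := by
    refine Finset.sum_le_sum fun K' _ => ?_
    rw [← mul_pow, div_mul_cancel₀ _ (sz_pos K).ne']
    exact Nn_le K'
  rw [← Finset.sum_mul] at h2
  have h3 := hη K
  rw [S_eq] at h3
  have h4 : (∑ K' ∈ univ.filter (fun K' => K' < K), (sz K' / sz K) ^ ℓ) * sz K ^ ℓ ≤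
      (1 - η) * sz K ^ ℓ :=
    mul_le_mul_of_nonneg_right (by linarith) (pow_pos (sz_pos K) ℓ).le
  linarith

/-- solution of a triangular system -/
theorem exists_tri {P : Type} [PartialOrder P] [Fintype P] (f : P → ℝ) (k : P → P → ℝ) :
    ∃ c : P → ℝ, ∀ V, c V = f V - ∑ W ∈ univ.filter (fun W => W < V), k W V * c W := by
  have wf : WellFounded (fun a b : P => a < b) := wellFounded_lt
  let F : (V : P) → ((W : P) → W < V → ℝ) → ℝ := fun V rec =>
    f V - ∑ W ∈ (univ.filter (fun W => W < V)).attach,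
      k W.1 V * rec W.1 (Finset.mem_filter.mp W.2).2
  refine ⟨wf.fix F, fun V => ?_⟩
  rw [wf.fix_eq]
  show f V - ∑ W ∈ (univ.filter (fun W => W < V)).attach, k W.1 V * wf.fix F W.1 = _
  rw [Finset.sum_attach (univ.filter (fun W => W < V)) (fun W => k W V * wf.fix F W)]

/-- the Fourier transform -/
noncomputable def hat (a : Tu n m ℓ → ℝ) (Y : Tu n m ℓ) : ℝ := ∑ X, a X * cs X Y

theorem cum_hat (a : Tu n m ℓ → ℝ) (K : AddSubgroup (Gp n m)) :
    cum (hat a) K = sz K ^ ℓ * cum a (perp K) := by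
  unfold cum hat
  rw [Finset.sum_comm, Finset.mul_sum, Finset.sum_filter]
  refine Finset.sum_congr rfl fun X _ => ?_
  rw [← Finset.mul_sum, tupleSum]
  by_cases h : gen X ≤ perp K
  · rw [if_pos h, if_pos h, mul_comm]
  · rw [if_neg h, if_neg h, mul_zero]

theorem cum_bot (a : Tu n m ℓ → ℝ) : cum a ⊥ = a 0 := by
  unfold cum
  have : univ.filter (fun X : Tu n m ℓ => gen X ≤ ⊥) = {0} := by
    ext X
    simp only [Finset.mem_filter, Finset.mem_univ, true_and, Finset.mem_singleton, gen_le,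
      AddSubgroup.mem_bot]
    constructor
    · intro h; funext j; exact h j
    · intro h j; rw [h]; rfl
  rw [this, Finset.sum_singleton]

theorem cum_top (a : Tu n m ℓ → ℝ) : cum a ⊤ = ∑ X, a X := by
  unfold cum
  rw [Finset.filter_true_of_mem (fun _ _ => le_top)]

/-- sum over subgroups, reindexed by duality -/
theorem sum_perp (f : AddSubgroup (Gp n m) → ℝ) : ∑ K, f (perp K) = ∑ K, f K := by
  refine Finset.sum_nbij' (i := perp) (j := perp) ?_ ?_ ?_ ?_ ?_
  · intro _ _; exact Finset.mem_univ _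
  · intro _ _; exact Finset.mem_univ _
  · intro K _; exact perp_perp K
  · intro K _; exact perp_perp K
  · intro _ _; rfl

theorem sum_above (W : AddSubgroup (Gp n m)) :
    ∑ V ∈ univ.filter (fun V => W < V), (sz W / sz V) ^ ℓ = S ℓ (perp W) - 1 := by
  rw [S_eq, add_sub_cancel_left]
  refine Finset.sum_nbij' (i := perp) (j := perp) ?_ ?_ ?_ ?_ ?_
  · intro V hV
    rw [Finset.mem_filter] at hV ⊢
    exact ⟨Finset.mem_univ _, perp_anti_lt.mpr hV.2⟩
  · intro K hK
    rw [Finset.mem_filter] at hK ⊢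
    refine ⟨Finset.mem_univ _, ?_⟩
    rw [← perp_perp W]
    exact perp_anti_lt.mpr hK.2
  · intro K _; exact perp_perp K
  · intro K _; exact perp_perp K
  · intro V _
    congr 1
    have h1 := sz_mul_sz W
    have h2 := sz_mul_sz V
    have p1 := sz_pos V
    have p2 := sz_pos (perp W)
    rw [div_eq_div_iff p1.ne' p2.ne', h1, ← h2]
    ring

theorem main_core {η : ℝ} (hη0 : 0 < η) (hη : ∀ K : AddSubgroup (Gp n m), S ℓ K ≤ 2 - η)
    (a : Tu n m ℓ → ℝ) (ha0 : a 0 = 1) (hhat : ∀ Y, 0 ≤ hat a Y)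
    (Fb : AddSubgroup (Gp n m) → Prop) (hup : ∀ K K', Fb K → K ≤ K' → Fb K')
    (hsupp : ∀ X, Fb (gen X) → a X = 0) (M : ℝ)
    (hM : ∀ K, ¬ Fb K → sz K ≤ M) :
    ∑ X, a X ≤ M ^ ℓ / η ^ 2 := by
  -- the weights
  set g : ℝ := sz (⊤ : AddSubgroup (Gp n m)) with hg
  have hgpos : 0 < g := sz_pos _
  set b : AddSubgroup (Gp n m) → ℝ := fib (hat a) with hb
  have hb0 : ∀ K, 0 ≤ b K := fun K => Finset.sum_nonneg fun Y _ => hhat Y
  have hbsum : ∑ K, b K = g ^ ℓ := by
    have h1 := cum_hat a (⊤ : AddSubgroup (Gp n m))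
    rw [perp_top, cum_bot, ha0, mul_one, cum_eq] at h1
    rw [Finset.filter_true_of_mem (fun _ _ => le_top)] at h1
    exact h1
  have hN : ∀ K, 0 < Nn ℓ K := fun K =>
    lt_of_lt_of_le (mul_pos hη0 (pow_pos (sz_pos K) ℓ)) (Nn_ge hη K)
  set e : AddSubgroup (Gp n m) → ℝ := fun K => b K / g ^ ℓ * (sz K ^ ℓ / Nn ℓ K) with he
  have he0 : ∀ K, 0 ≤ e K := fun K =>
    mul_nonneg (div_nonneg (hb0 K) (pow_pos hgpos ℓ).le)
      (div_nonneg (pow_pos (sz_pos K) ℓ).le (hN K).le)
  have hesum : ∑ K, e K ≤ 1 / η := by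
    have h1 : ∀ K ∈ (univ : Finset (AddSubgroup (Gp n m))), e K ≤ b K / g ^ ℓ * (1 / η) := by
      intro K _
      apply mul_le_mul_of_nonneg_left _ (div_nonneg (hb0 K) (pow_pos hgpos ℓ).le)
      rw [div_le_div_iff₀ (hN K) hη0, one_mul, mul_comm]
      exact Nn_ge hη K
    refine (Finset.sum_le_sum h1).trans ?_
    rw [← Finset.sum_mul, ← Finset.sum_div, hbsum, div_self (pow_pos hgpos ℓ).ne', one_mul]
  obtain ⟨c, hc⟩ := exists_tri (fun V : AddSubgroup (Gp n m) => e (perp V))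
    (fun W V => (sz W / sz V) ^ ℓ)
  have hc' : ∀ V, ∑ W ∈ univ.filter (fun W => W ≤ V), c W * sz W ^ ℓ = sz V ^ ℓ * e (perp V) := by
    intro V
    rw [sum_le_eq (fun W => c W * sz W ^ ℓ) V]
    have hV := hc V
    have h1 : ∑ W ∈ univ.filter (fun W => W < V), c W * sz W ^ ℓ =
        sz V ^ ℓ * ∑ W ∈ univ.filter (fun W => W < V), (sz W / sz V) ^ ℓ * c W := by
      rw [Finset.mul_sum]
      refine Finset.sum_congr rfl fun W _ => ?_
      rw [div_pow]
      field_simp [(pow_pos (sz_pos V) ℓ).ne']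
    rw [h1]
    have h2 : e (perp V) = c V + ∑ W ∈ univ.filter (fun W => W < V), (sz W / sz V) ^ ℓ * c W := by
      rw [hV]; ring
    rw [h2]; ring
  -- the absolute values
  have habs : ∑ V, |c V| ≤ 1 / η ^ 2 := by
    have h1 : ∀ V ∈ (univ : Finset (AddSubgroup (Gp n m))), |c V| ≤ e (perp V) +
        ∑ W ∈ univ.filter (fun W => W < V), (sz W / sz V) ^ ℓ * |c W| := by
      intro V _
      rw [hc V]
      refine (abs_sub _ _).trans ?_
      have e1 : |e (perp V)| = e (perp V) := abs_of_nonneg (he0 _)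
      rw [e1]
      have h2 := Finset.abs_sum_le_sum_abs (fun W => (sz W / sz V) ^ ℓ * c W)
        (univ.filter (fun W => W < V))
      refine add_le_add le_rfl (h2.trans (le_of_eq ?_))
      refine Finset.sum_congr rfl fun W _ => ?_
      rw [abs_mul, abs_of_nonneg (pow_nonneg (div_nonneg (sz_pos W).le (sz_pos V).le) ℓ)]
    have h2 := Finset.sum_le_sum h1
    rw [Finset.sum_add_distrib, sum_perp] at h2
    have h3 : ∑ V : AddSubgroup (Gp n m), ∑ W ∈ univ.filter (fun W => W < V),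
        (sz W / sz V) ^ ℓ * |c W| ≤ (1 - η) * ∑ W, |c W| := by
      have h4 : ∑ V : AddSubgroup (Gp n m), ∑ W ∈ univ.filter (fun W => W < V),
          (sz W / sz V) ^ ℓ * |c W| = ∑ W : AddSubgroup (Gp n m),
          ∑ V ∈ univ.filter (fun V => W < V), (sz W / sz V) ^ ℓ * |c W| := by
        simp_rw [Finset.sum_filter]
        rw [Finset.sum_comm]
      rw [h4, Finset.mul_sum]
      refine Finset.sum_le_sum fun W _ => ?_
      rw [← Finset.sum_mul, sum_above]
      exact mul_le_mul_of_nonneg_right (by linarith [hη (perp W)]) (abs_nonneg _)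
    have h5 : η * ∑ V, |c V| ≤ 1 / η := by linarith
    rw [le_div_iff₀ (by positivity)]
    rw [le_div_iff₀ hη0] at h5
    linarith [h5]
  -- the identity
  have hid : ∀ U, cum a U = ∑ W, c W * sz (W ⊓ U) ^ ℓ := by
    intro U
    have hgl : g ^ ℓ ≠ 0 := (pow_pos hgpos ℓ).ne'
    apply mul_right_cancel₀ hgl
    have h1 : cum a U * g ^ ℓ = sz U ^ ℓ * ∑ K ∈ univ.filter (fun K => K ≤ perp U), b K := by
      have h2 := cum_hat a (perp U)
      rw [perp_perp, cum_eq] at h2
      rw [hb, h2, ← mul_assoc, ← mul_pow, sz_mul_sz U]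
      ring
    rw [h1]
    have h3 : (∑ W, c W * sz (W ⊓ U) ^ ℓ) * g ^ ℓ =
        sz U ^ ℓ * ∑ W, c W * sz W ^ ℓ * sz (perp W ⊓ perp U) ^ ℓ := by
      rw [Finset.sum_mul, Finset.mul_sum]
      refine Finset.sum_congr rfl fun W _ => ?_
      rw [mul_assoc, ← mul_pow, sz_inf, mul_pow, mul_pow]
      ring
    rw [h3]
    congr 1
    have h4 : ∀ W : AddSubgroup (Gp n m), c W * sz W ^ ℓ * sz (perp W ⊓ perp U) ^ ℓ =
        ∑ K : AddSubgroup (Gp n m),
          if K ≤ perp U ∧ W ≤ perp K then c W * sz W ^ ℓ * Nn ℓ K else 0 := by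
      intro W
      rw [← cum_one (ℓ := ℓ) (perp W ⊓ perp U), Finset.mul_sum, Finset.sum_filter]
      refine Finset.sum_congr rfl fun K _ => ?_
      have : K ≤ perp W ⊓ perp U ↔ K ≤ perp U ∧ W ≤ perp K := by
        rw [le_inf_iff, and_comm, le_perp (U := K) (V := W)]
      simp only [this]
    rw [Finset.sum_congr (g := fun W => ∑ K, if K ≤ perp U ∧ W ≤ perp K then
      c W * sz W ^ ℓ * Nn ℓ K else 0) rfl fun W _ => h4 W, Finset.sum_comm, Finset.sum_filter]
    refine Finset.sum_congr rfl fun K _ => ?_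
    by_cases hK : K ≤ perp U
    · rw [if_pos hK]
      have h5 : ∑ W : AddSubgroup (Gp n m), (if K ≤ perp U ∧ W ≤ perp K then
          c W * sz W ^ ℓ * Nn ℓ K else 0) =
          (∑ W ∈ univ.filter (fun W => W ≤ perp K), c W * sz W ^ ℓ) * Nn ℓ K := by
        rw [Finset.sum_mul, Finset.sum_filter]
        refine Finset.sum_congr rfl fun W _ => ?_
        simp only [hK, true_and]
      rw [h5, hc', perp_perp]
      simp only [he]
      have h6 : sz (perp K) ^ ℓ * (b K / g ^ ℓ * (sz K ^ ℓ / Nn ℓ K)) * Nn ℓ K =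
          b K * ((sz K * sz (perp K)) ^ ℓ / g ^ ℓ) := by
        rw [mul_pow]
        have := (hN K).ne'
        field_simp
      rw [h6, sz_mul_sz, div_self hgl, mul_one]
    · rw [if_neg hK]
      symm
      refine Finset.sum_eq_zero fun W _ => ?_
      rw [if_neg (fun h => hK h.1)]
  -- upper sums
  set C : AddSubgroup (Gp n m) → ℝ := fun K => ∑ W ∈ univ.filter (fun W => K ≤ W), c W with hC
  have hcum : ∀ U, ∑ K ∈ univ.filter (fun K => K ≤ U), fib a K =
      ∑ K ∈ univ.filter (fun K => K ≤ U), Nn ℓ K * C K := by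
    intro U
    rw [← cum_eq, hid U]
    have h1 : ∀ W : AddSubgroup (Gp n m), c W * sz (W ⊓ U) ^ ℓ =
        ∑ K : AddSubgroup (Gp n m), if K ≤ U ∧ K ≤ W then c W * Nn ℓ K else 0 := by
      intro W
      rw [← cum_one (ℓ := ℓ) (W ⊓ U), Finset.mul_sum, Finset.sum_filter]
      refine Finset.sum_congr rfl fun K _ => ?_
      have : K ≤ W ⊓ U ↔ K ≤ U ∧ K ≤ W := by rw [le_inf_iff, and_comm]
      simp only [this]
    rw [Finset.sum_congr rfl fun W _ => h1 W, Finset.sum_comm, Finset.sum_filter]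
    refine Finset.sum_congr rfl fun K _ => ?_
    by_cases hK : K ≤ U
    · rw [if_pos hK, hC]
      simp only
      rw [Finset.mul_sum, Finset.sum_filter]
      refine Finset.sum_congr rfl fun W _ => ?_
      simp only [hK, true_and]
      split_ifs <;> ring
    · rw [if_neg hK]
      refine Finset.sum_eq_zero fun W _ => ?_
      rw [if_neg (fun h => hK h.1)]
  have hfib : ∀ K, fib a K = Nn ℓ K * C K := by
    intro K
    induction K using WellFoundedLT.induction with
    | ind K ih =>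
      have h1 := hcum K
      rw [sum_le_eq, sum_le_eq (fun K => Nn ℓ K * C K)] at h1
      have h2 : ∑ K' ∈ univ.filter (fun K' => K' < K), fib a K' =
          ∑ K' ∈ univ.filter (fun K' => K' < K), Nn ℓ K' * C K' :=
        Finset.sum_congr rfl fun K' hK' => ih K' (Finset.mem_filter.mp hK').2
      linarith
  have hC0 : ∀ K, Fb K → C K = 0 := by
    intro K hK
    have h1 := hfib K
    have h2 : fib a K = 0 := by
      unfold fib
      refine Finset.sum_eq_zero fun X hX => ?_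
      rw [Finset.mem_filter] at hX
      exact hsupp X (by rw [hX.2]; exact hK)
    rw [h2] at h1
    exact (mul_eq_zero.mp h1.symm).resolve_left (hN K).ne'
  have hc0 : ∀ K, Fb K → c K = 0 := by
    intro K
    induction K using WellFoundedGT.induction with
    | ind K ih =>
      intro hK
      have h1 := hC0 K hK
      rw [hC] at h1
      simp only at h1
      have h2 : univ.filter (fun W => K ≤ W) = insert K (univ.filter (fun W => K < W)) := by
        ext W
        simp only [Finset.mem_filter, Finset.mem_univ, true_and, Finset.mem_insert]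
        rw [le_iff_eq_or_lt, eq_comm]
      rw [h2, Finset.sum_insert (by simp)] at h1
      rw [Finset.sum_eq_zero, add_zero] at h1
      · exact h1
      · intro W hW
        have hW' := (Finset.mem_filter.mp hW).2
        exact ih W hW' (hup K W hK hW'.le)
  -- conclusion
  rw [← cum_top, hid ⊤]
  have h1 : ∀ W ∈ (univ : Finset (AddSubgroup (Gp n m))), c W * sz (W ⊓ ⊤) ^ ℓ ≤ |c W| * M ^ ℓ := by
    intro W _
    rw [inf_top_eq]
    by_cases hW : Fb W
    · rw [hc0 W hW]; simp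
    · have h2 : sz W ^ ℓ ≤ M ^ ℓ := pow_le_pow_left₀ (sz_pos W).le (hM W hW) ℓ
      calc c W * sz W ^ ℓ ≤ |c W| * sz W ^ ℓ :=
            mul_le_mul_of_nonneg_right (le_abs_self _) (pow_pos (sz_pos W) ℓ).le
        _ ≤ |c W| * M ^ ℓ := mul_le_mul_of_nonneg_left h2 (abs_nonneg _)
  have hMpos : 0 ≤ M ^ ℓ := by
    by_cases hbot : Fb ⊥
    · exfalso
      have := hsupp 0 (hup ⊥ _ hbot bot_le)
      rw [ha0] at this
      exact one_ne_zero this
    · exact pow_nonneg ((sz_pos _).le.trans (hM ⊥ hbot)) ℓ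
  calc ∑ W, c W * sz (W ⊓ ⊤) ^ ℓ ≤ ∑ W, |c W| * M ^ ℓ := Finset.sum_le_sum h1
    _ = (∑ W, |c W|) * M ^ ℓ := by rw [Finset.sum_mul]
    _ ≤ 1 / η ^ 2 * M ^ ℓ := mul_le_mul_of_nonneg_right habs hMpos
    _ = M ^ ℓ / η ^ 2 := by ring

end Pool.Agent.K4H31.LPH
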